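import Pool.Agent.R913.Adj.Weight
import Pool.Agent.Y41.RM.Concl
import Pool.Agent.Y220.RM.TFR

/-!
# Tate tensors of type (2, 2) and the motivic Lie algebra
-/

set_option autoImplicit false
set_option linter.unusedSectionVars false

namespace Pool.Agent.V5helper84.QT

open Module Pool.Agent.Y114.RM Pool.Agent.Y114.TF Pool.Agent.H204R3.GP Pool.Agent.R913.Adj
  Pool.Agent

noncomputable section

section four

variable {K E : Type} [Field K] [AddCommGroup E] [Module K E]

/-- a function of four variables as a multilinear map -/
def mk4 (F : E → E → E → E → K)
    (a0 : ∀ x y b c d, F (x + y) b c d = F x b c d + F y b c d)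
    (a1 : ∀ a x y c d, F a (x + y) c d = F a x c d + F a y c d)
    (a2 : ∀ a b x y d, F a b (x + y) d = F a b x d + F a b y d)
    (a3 : ∀ a b c x y, F a b c (x + y) = F a b c x + F a b c y)
    (s0 : ∀ (r : K) x b c d, F (r • x) b c d = r • F x b c d)
    (s1 : ∀ (r : K) a x c d, F a (r • x) c d = r • F a x c d)
    (s2 : ∀ (r : K) a b x d, F a b (r • x) d = r • F a b x d)
    (s3 : ∀ (r : K) a b c x, F a b c (r • x) = r • F a b c x) :
    MultilinearMap K (fun _ : Fin 4 => E) K where
  toFun v := F (v 0) (v 1) (v 2) (v 3)
  map_update_add' := by
    have h : ∀ s t : Fin 4, s.val ≠ t.val → s ≠ t := fun s t h h' => h (by rw [h'])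
    have h10 := h 1 0 (by decide)
    have h20 := h 2 0 (by decide)
    have h30 := h 3 0 (by decide)
    have h21 := h 2 1 (by decide)
    have h31 := h 3 1 (by decide)
    have h32 := h 3 2 (by decide)
    intro _ m t x y
    match t with
    | 0 =>
      rw [Function.update_self, Function.update_self, Function.update_self,
        Function.update_of_ne h10, Function.update_of_ne h20,
        Function.update_of_ne h30, Function.update_of_ne h10, Function.update_of_ne h20,
        Function.update_of_ne h30, Function.update_of_ne h10, Function.update_of_ne h20,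
        Function.update_of_ne h30, a0]
    | 1 =>
      rw [Function.update_self, Function.update_self, Function.update_self,
        Function.update_of_ne h10.symm, Function.update_of_ne h21,
        Function.update_of_ne h31, Function.update_of_ne h10.symm, Function.update_of_ne h21,
        Function.update_of_ne h31, Function.update_of_ne h10.symm, Function.update_of_ne h21,
        Function.update_of_ne h31, a1]
    | 2 =>
      rw [Function.update_self, Function.update_self, Function.update_self,
        Function.update_of_ne h20.symm, Function.update_of_ne h21.symm,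
        Function.update_of_ne h32, Function.update_of_ne h20.symm, Function.update_of_ne h21.symm,
        Function.update_of_ne h32, Function.update_of_ne h20.symm, Function.update_of_ne h21.symm,
        Function.update_of_ne h32, a2]
    | 3 =>
      rw [Function.update_self, Function.update_self, Function.update_self,
        Function.update_of_ne h30.symm, Function.update_of_ne h31.symm,
        Function.update_of_ne h32.symm, Function.update_of_ne h30.symm,
        Function.update_of_ne h31.symm,
        Function.update_of_ne h32.symm, Function.update_of_ne h30.symm,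
        Function.update_of_ne h31.symm,
        Function.update_of_ne h32.symm, a3]
  map_update_smul' := by
    have h : ∀ s t : Fin 4, s.val ≠ t.val → s ≠ t := fun s t h h' => h (by rw [h'])
    have h10 := h 1 0 (by decide)
    have h20 := h 2 0 (by decide)
    have h30 := h 3 0 (by decide)
    have h21 := h 2 1 (by decide)
    have h31 := h 3 1 (by decide)
    have h32 := h 3 2 (by decide)
    intro _ m t c x
    match t with
    | 0 =>
      rw [Function.update_self, Function.update_self,
        Function.update_of_ne h10, Function.update_of_ne h20,
        Function.update_of_ne h30, Function.update_of_ne h10, Function.update_of_ne h20,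
        Function.update_of_ne h30, s0]
    | 1 =>
      rw [Function.update_self, Function.update_self,
        Function.update_of_ne h10.symm, Function.update_of_ne h21,
        Function.update_of_ne h31, Function.update_of_ne h10.symm, Function.update_of_ne h21,
        Function.update_of_ne h31, s1]
    | 2 =>
      rw [Function.update_self, Function.update_self,
        Function.update_of_ne h20.symm, Function.update_of_ne h21.symm,
        Function.update_of_ne h32, Function.update_of_ne h20.symm, Function.update_of_ne h21.symm,
        Function.update_of_ne h32, s2]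
    | 3 =>
      rw [Function.update_self, Function.update_self,
        Function.update_of_ne h30.symm, Function.update_of_ne h31.symm,
        Function.update_of_ne h32.symm, Function.update_of_ne h30.symm,
        Function.update_of_ne h31.symm,
        Function.update_of_ne h32.symm, s3]

end four

section rank

variable {k : Type} [Field k] {V : Type} [AddCommGroup V] [Module k V]

/-- the endomorphism `y ↦ f y • x` -/
def rk (x : V) (f : Dual k V) : End k V := LinearMap.smulRightₗ f x

theorem rk_apply (x : V) (f : Dual k V) (y : V) : rk x f y = f y • x := rfl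

/-- the tensor of an endomorphism of the space of endomorphisms -/
def ten (p : End k (End k V)) : Tensor k V 4 :=
  mk4 (fun a b c d => d.2 (p (rk a.1 b.2) c.1))
    (fun x y b c d => by simp [rk, map_add])
    (fun a x y c d => by simp [rk, map_add])
    (fun a b x y d => by simp [map_add])
    (fun a b c x y => by simp)
    (fun r x b c d => by simp [rk])
    (fun r a x c d => by simp [rk])
    (fun r a b x d => by simp)
    (fun r a b c x => by simp)

theorem ten_apply (p : End k (End k V)) (v : Fin 4 → V × Dual k V) :
    ten p v = (v 3).2 (p (rk (v 0).1 (v 1).2) (v 2).1) := rfl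

theorem rk_comm (X : End k V) (x : V) (f : Dual k V) :
    X * rk x f - rk x f * X = rk (X x) f + rk x (-(X.dualMap f)) := by
  refine LinearMap.ext fun y => ?_
  change X (f y • x) - f (X y) • x = f y • X x + (-(X.dualMap f)) y • x
  rw [map_smul, LinearMap.neg_apply, LinearMap.dualMap_apply, neg_smul, ← sub_eq_add_neg]

theorem kills_sum {X : End k V} {p : End k (End k V)} (v : Fin 4 → V × Dual k V) :
    ∑ l, ten p (Function.update v l (lie X (v l))) =
      (v 3).2 ((p (X * rk (v 0).1 (v 1).2 - rk (v 0).1 (v 1).2 * X) -
        (X * p (rk (v 0).1 (v 1).2) - p (rk (v 0).1 (v 1).2) * X)) (v 2).1) := by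
  have h : ∀ s t : Fin 4, s.val ≠ t.val → s ≠ t := fun s t h h' => h (by rw [h'])
  have h10 := h 1 0 (by decide)
  have h20 := h 2 0 (by decide)
  have h30 := h 3 0 (by decide)
  have h21 := h 2 1 (by decide)
  have h31 := h 3 1 (by decide)
  have h32 := h 3 2 (by decide)
  rw [Fin.sum_univ_four, rk_comm]
  simp only [ten_apply]
  rw [Function.update_self, Function.update_of_ne h10, Function.update_of_ne h20,
    Function.update_of_ne h30, Function.update_self, Function.update_of_ne h10.symm,
    Function.update_of_ne h21, Function.update_of_ne h31, Function.update_self,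
    Function.update_of_ne h20.symm, Function.update_of_ne h21.symm, Function.update_of_ne h32,
    Function.update_self, Function.update_of_ne h30.symm, Function.update_of_ne h31.symm,
    Function.update_of_ne h32.symm]
  change (v 3).2 (p (rk (X (v 0).1) (v 1).2) (v 2).1) +
      (v 3).2 (p (rk (v 0).1 (-(X.dualMap (v 1).2))) (v 2).1) +
      (v 3).2 (p (rk (v 0).1 (v 1).2) (X (v 2).1)) +
      -((v 3).2 (X (p (rk (v 0).1 (v 1).2) (v 2).1))) = _
  simp only [map_add, map_sub, LinearMap.add_apply, LinearMap.sub_apply, Module.End.mul_apply]
  ring

theorem kills_ten [FiniteDimensional k V] {X : End k V} {p : End k (End k V)}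
    (h : KillsTensor X (ten p)) (Y : End k V) : p (X * Y - Y * X) = X * p Y - p Y * X := by
  have h1 : ∀ (x : V) (f : Dual k V),
      p (X * rk x f - rk x f * X) - (X * p (rk x f) - p (rk x f) * X) = 0 := by
    intro x f
    refine LinearMap.ext fun w => ?_
    rw [LinearMap.zero_apply, ← Module.forall_dual_apply_eq_zero_iff k]
    intro ξ
    have h2 := h ![(x, 0), (0, f), (w, 0), (0, ξ)]
    rw [kills_sum] at h2
    exact h2
  let b := Module.finBasis k V
  have h2 : Y = ∑ i, rk (Y (b i)) (b.coord i) := by
    refine LinearMap.ext fun v => ?_
    rw [LinearMap.sum_apply]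
    conv_lhs => rw [← b.sum_repr v, map_sum]
    refine Finset.sum_congr rfl fun i _ => ?_
    rw [map_smul, rk_apply, Basis.coord_apply]
  rw [h2]
  simp only [Finset.mul_sum, Finset.sum_mul, map_sum, ← Finset.sum_sub_distrib]
  exact Finset.sum_congr rfl fun i _ => sub_eq_zero.1 (h1 _ _)

variable {Γ : Type} [Group Γ] {ρ : Representation k Γ V}

theorem rk_conj (g g' : End k V) (x : V) (f : Dual k V) :
    g * rk x f * g' = rk (g x) (g'.dualMap f) := by
  refine LinearMap.ext fun y => ?_
  change g (f (g' y) • x) = f (g' y) • g x
  rw [map_smul]

theorem tate_ten {p : End k (End k V)} {Δ : Subgroup Γ} (hΔ : Δ.FiniteIndex)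
    (h : ∀ γ ∈ Δ, ∀ Y, p (ρ γ * Y * ρ γ⁻¹) = ρ γ * p Y * ρ γ⁻¹) : TateTensor ρ (ten p) := by
  refine ⟨Δ, hΔ, fun γ hγ v => ?_⟩
  rw [ten_apply, ten_apply]
  change (v 3).2 (ρ γ⁻¹ (p (rk (ρ γ (v 0).1) ((ρ γ⁻¹).dualMap (v 1).2)) (ρ γ (v 2).1))) = _
  rw [← rk_conj, h γ hγ]
  have h1 : ∀ w, ρ γ⁻¹ (ρ γ w) = w := fun w => by
    rw [← Module.End.mul_apply, rim, Module.End.one_apply]
  rw [Module.End.mul_apply, Module.End.mul_apply, h1, h1]

end rank

end

end Pool.Agent.V5helper84.QT
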