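import Pool.Agent.V5helper84.QT.Norm

/-!
# Forms in four variables on a space with a bilinear form
-/

set_option autoImplicit false
set_option linter.unusedSectionVars false

namespace Pool.Agent.V5helper84.QT

open Module Pool.Agent.Y114.RM Pool.Agent.Y114.TF Pool.Agent.H204R3.GP Pool.Agent.R913.Adj
  Pool.Agent

noncomputable section

section form

variable {k : Type} [Field k] [CharZero k] {V : Type} [AddCommGroup V] [Module k V]
  [FiniteDimensional k V] {Γ : Type} [Group Γ]

/-- The forms in four variables on `V` which are semi-invariant, with the square of the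
multiplier, under a subgroup of finite index, are semi-invariant under `𝔤` in the infinitesimal
sense. -/
def FourTate (ρ : Representation k Γ V) (χ : Γ → k) (ω : V →ₗ[k] V →ₗ[k] k)
    (𝔤 : Submodule k (End k V)) : Prop :=
  ∀ φ : MultilinearMap k (fun _ : Fin 4 => V) k,
    (∃ Δ : Subgroup Γ, Δ.FiniteIndex ∧ ∀ s ∈ Δ, ∀ v, φ (fun l => ρ s (v l)) = χ s ^ 2 * φ v) →
    ∀ X ∈ 𝔤, ∀ c : k, (∀ u v, ω (X u) v + ω u (X v) = c * ω u v) →
      ∀ v, ∑ l, φ (Function.update v l (X (v l))) = 2 * c * φ v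

variable {ρ : Representation k Γ V} {χ : Γ → k} {ω : V →ₗ[k] V →ₗ[k] k}
  {𝔤 : Submodule k (End k V)}

/-- the form in four variables attached to an endomorphism of `End V` -/
def fo (ω : V →ₗ[k] V →ₗ[k] k) (p : End k (End k V)) : MultilinearMap k (fun _ : Fin 4 => V) k :=
  mk4 (fun a b c d => ω (p (rk a (ω b)) c) d)
    (fun x y b c d => by simp [rk, map_add])
    (fun a x y c d => by simp [rk, map_add])
    (fun a b x y d => by simp [map_add])
    (fun a b c x y => by simp)
    (fun r x b c d => by simp [rk])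
    (fun r a x c d => by simp [rk])
    (fun r a b x d => by simp)
    (fun r a b c x => by simp)

theorem fo_apply (p : End k (End k V)) (v : Fin 4 → V) :
    fo ω p v = ω (p (rk (v 0) (ω (v 1))) (v 2)) (v 3) := rfl

/-- every functional is given by a vector -/
theorem exists_vec (hω : ∀ u, (∀ v, ω u v = 0) → u = 0) (f : Dual k V) : ∃ b, ω b = f := by
  have h1 : Function.Injective (ω : V →ₗ[k] Dual k V) := by
    rw [← LinearMap.ker_eq_bot, eq_bot_iff]
    intro u hu
    rw [LinearMap.mem_ker] at hu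
    exact (Submodule.mem_bot k).2 (hω u fun v => by rw [hu, LinearMap.zero_apply])
  have h2 : Function.Surjective (ω : V →ₗ[k] Dual k V) :=
    (LinearMap.injective_iff_surjective_of_finrank_eq_finrank
      (Subspace.dual_finrank_eq (K := k) (V := V)).symm).1 h1
  exact h2 f

theorem sum_update {M : Type} [AddCommMonoid M] (F : (Fin 4 → V) → M) (X : End k V)
    (v : Fin 4 → V) : ∑ l, F (Function.update v l (X (v l))) =
      F ![X (v 0), v 1, v 2, v 3] + F ![v 0, X (v 1), v 2, v 3] + F ![v 0, v 1, X (v 2), v 3] +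
        F ![v 0, v 1, v 2, X (v 3)] := by
  rw [Fin.sum_univ_four]
  have e0 : Function.update v 0 (X (v 0)) = ![X (v 0), v 1, v 2, v 3] := by
    funext i
    fin_cases i <;> rfl
  have e1 : Function.update v 1 (X (v 1)) = ![v 0, X (v 1), v 2, v 3] := by
    funext i
    fin_cases i <;> rfl
  have e2 : Function.update v 2 (X (v 2)) = ![v 0, v 1, X (v 2), v 3] := by
    funext i
    fin_cases i <;> rfl
  have e3 : Function.update v 3 (X (v 3)) = ![v 0, v 1, v 2, X (v 3)] := by
    funext i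
    fin_cases i <;> rfl
  rw [e0, e1, e2, e3]

/-- The forms in four variables control the endomorphisms of `End V`. -/
theorem quartic_of_four (hω : ∀ u, (∀ v, ω u v = 0) → u = 0)
    (hinv : ∀ s u v, ω (ρ s u) (ρ s v) = χ s * ω u v)
    (hmul : ∀ X ∈ 𝔤, ∃ c : k, ∀ u v, ω (X u) v + ω u (X v) = c * ω u v)
    (h : FourTate ρ χ ω 𝔤) : Quartic ρ 𝔤 := by
  rintro p ⟨Δ, hΔ, hp⟩ X hX Y
  obtain ⟨c, hc⟩ := hmul X hX
  -- the form is semi-invariant
  have h1 : ∀ s ∈ Δ, ∀ v, fo ω p (fun l => ρ s (v l)) = χ s ^ 2 * fo ω p v := by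
    intro s hs v
    rw [fo_apply, fo_apply]
    have e1 : rk (ρ s (v 0)) (ω (ρ s (v 1))) = χ s • (ρ s * rk (v 0) (ω (v 1)) * ρ s⁻¹) := by
      refine LinearMap.ext fun y => ?_
      rw [rk_apply, LinearMap.smul_apply, Module.End.mul_apply, Module.End.mul_apply, rk_apply,
        map_smul, smul_smul]
      congr 1
      have h2 := hinv s (v 1) (ρ s⁻¹ y)
      rwa [← Module.End.mul_apply (ρ s) (ρ s⁻¹) y, rmi, Module.End.one_apply] at h2
    rw [e1, map_smul, hp s hs, LinearMap.smul_apply, map_smul, LinearMap.smul_apply, smul_eq_mul,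
      Module.End.mul_apply, Module.End.mul_apply, ← Module.End.mul_apply (ρ s⁻¹) (ρ s), rim,
      Module.End.one_apply, hinv]
    ring
  have h2 := h (fo ω p) ⟨Δ, hΔ, h1⟩ X hX c hc
  have h3 : ∀ (x : V) (f : Dual k V),
      p (X * rk x f - rk x f * X) = X * p (rk x f) - p (rk x f) * X := by
    intro x f
    obtain ⟨b, rfl⟩ := exists_vec hω f
    refine LinearMap.ext fun w => ?_
    have hin : Function.Injective (ω : V →ₗ[k] Dual k V) := by
      rw [← LinearMap.ker_eq_bot, eq_bot_iff]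
      intro u hu
      rw [LinearMap.mem_ker] at hu
      exact (Submodule.mem_bot k).2 (hω u fun v => by rw [hu, LinearMap.zero_apply])
    refine hin (LinearMap.ext fun d => ?_)
    have h4 := h2 ![x, b, w, d]
    rw [sum_update (k := k)] at h4
    simp only [fo_apply, Matrix.cons_val_zero, Matrix.cons_val_one, Matrix.cons_val] at h4
    have h5 : rk x (ω (X b)) = c • rk x (ω b) - rk x (ω b) * X := by
      refine LinearMap.ext fun y => ?_
      rw [rk_apply, LinearMap.sub_apply, LinearMap.smul_apply, Module.End.mul_apply, rk_apply,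
        rk_apply, smul_smul, ← sub_smul]
      congr 1
      rw [← hc b y]
      ring
    have h6 : rk (X x) (ω b) = X * rk x (ω b) := by
      refine LinearMap.ext fun y => ?_
      rw [rk_apply, Module.End.mul_apply, rk_apply, map_smul]
    have h7 := hc (p (rk x (ω b)) w) d
    rw [h5, h6, map_sub, map_smul] at h4
    rw [map_sub]
    simp only [LinearMap.sub_apply, LinearMap.smul_apply, map_sub, map_smul, smul_eq_mul,
      Module.End.mul_apply] at h4 ⊢
    linear_combination h4 - h7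
  let b := Module.finBasis k V
  have h8 : Y = ∑ i, rk (Y (b i)) (b.coord i) := by
    refine LinearMap.ext fun v => ?_
    rw [LinearMap.sum_apply]
    conv_lhs => rw [← b.sum_repr v, map_sum]
    refine Finset.sum_congr rfl fun i _ => ?_
    rw [map_smul, rk_apply, Basis.coord_apply]
  rw [h8]
  simp only [Finset.mul_sum, Finset.sum_mul, map_sum, ← Finset.sum_sub_distrib]
  exact Finset.sum_congr rfl fun i _ => h3 _ _

/-- If all Tate tensors are killed by `𝔤`, the forms in four variables are semi-invariant. -/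
theorem four_of_tate (hω : ∀ u, (∀ v, ω u v = 0) → u = 0) (hχ : ∀ s, χ s ≠ 0)
    (hinv : ∀ s u v, ω (ρ s u) (ρ s v) = χ s * ω u v)
    (h : ∀ (m : ℕ) (φ : Tensor k V m), TateTensor ρ φ → ∀ X ∈ 𝔤, KillsTensor X φ) :
    FourTate ρ χ ω 𝔤 := by
  rintro φ ⟨Δ, hΔ, hφ⟩ X hX c hc v
  have hin : Function.Injective (ω : V →ₗ[k] Dual k V) := by
    rw [← LinearMap.ker_eq_bot, eq_bot_iff]
    intro u hu
    rw [LinearMap.mem_ker] at hu
    exact (Submodule.mem_bot k).2 (hω u fun v => by rw [hu, LinearMap.zero_apply])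
  let e : V ≃ₗ[k] Dual k V := LinearEquiv.ofBijective (ω : V →ₗ[k] Dual k V)
    ⟨hin, fun f => exists_vec hω f⟩
  have he : ∀ b, e b = ω b := fun b => rfl
  have hes : ∀ f : Dual k V, ω (e.symm f) = f := fun f => e.apply_symm_apply f
  have hes' : ∀ b, e.symm (ω b) = b := fun b => e.symm_apply_apply b
  let π : Fin 4 → (V × Dual k V) →ₗ[k] V :=
    ![LinearMap.fst k V (Dual k V), e.symm.toLinearMap ∘ₗ LinearMap.snd k V (Dual k V),
      LinearMap.fst k V (Dual k V), e.symm.toLinearMap ∘ₗ LinearMap.snd k V (Dual k V)]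
  let F : Tensor k V 4 := φ.compLinearMap π
  have hF : ∀ w : Fin 4 → V × Dual k V,
      F w = φ ![(w 0).1, e.symm (w 1).2, (w 2).1, e.symm (w 3).2] := by
    intro w
    change φ (fun l => π l (w l)) = _
    congr 1
    funext l
    fin_cases l <;> rfl
  -- the dual action
  have hdual : ∀ s (f : Dual k V), e.symm (f ∘ₗ ρ s⁻¹) = (χ s)⁻¹ • ρ s (e.symm f) := by
    intro s f
    rw [LinearEquiv.symm_apply_eq]
    refine LinearMap.ext fun y => ?_
    change f (ρ s⁻¹ y) = ω ((χ s)⁻¹ • ρ s (e.symm f)) y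
    have h1 := hinv s (e.symm f) (ρ s⁻¹ y)
    rw [← Module.End.mul_apply (ρ s) (ρ s⁻¹) y, rmi, Module.End.one_apply, hes] at h1
    rw [map_smul, LinearMap.smul_apply, smul_eq_mul, h1, inv_mul_cancel_left₀ (hχ s)]
  have hdlie : ∀ b : V, e.symm (-(X.dualMap (ω b))) = X b - c • b := by
    intro b
    rw [LinearEquiv.symm_apply_eq]
    refine LinearMap.ext fun y => ?_
    change -(ω b (X y)) = ω (X b - c • b) y
    rw [map_sub, map_smul, LinearMap.sub_apply, LinearMap.smul_apply, smul_eq_mul, ← hc b y]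
    ring
  have hsm : ∀ (a b : k) (x y z w : V), φ ![x, a • y, z, b • w] = a * b * φ ![x, y, z, w] := by
    intro a b x y z w
    have h1 := φ.map_smul_univ ![1, a, 1, b] ![x, y, z, w]
    have h2 : (fun i => (![1, a, 1, b] : Fin 4 → k) i • (![x, y, z, w] : Fin 4 → V) i) =
        ![x, a • y, z, b • w] := by
      funext i
      fin_cases i
      · exact one_smul k x
      · rfl
      · exact one_smul k z
      · rfl
    rw [h2] at h1
    rw [h1, Fin.prod_univ_four]
    simp
  have hTate : TateTensor ρ F := by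
    refine ⟨Δ, hΔ, fun s hs w => ?_⟩
    rw [hF, hF]
    change φ ![ρ s (w 0).1, e.symm ((w 1).2 ∘ₗ ρ s⁻¹), ρ s (w 2).1, e.symm ((w 3).2 ∘ₗ ρ s⁻¹)] = _
    rw [hdual, hdual, hsm]
    have h1 := hφ s hs ![(w 0).1, e.symm (w 1).2, (w 2).1, e.symm (w 3).2]
    have h2 : (fun l => ρ s ((![(w 0).1, e.symm (w 1).2, (w 2).1, e.symm (w 3).2] : Fin 4 → V) l)) =
        ![ρ s (w 0).1, ρ s (e.symm (w 1).2), ρ s (w 2).1, ρ s (e.symm (w 3).2)] := by
      funext l
      fin_cases l <;> rfl
    rw [h2] at h1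
    rw [h1]
    have := hχ s
    field_simp
  have hK := h 4 F hTate X hX ![(v 0, 0), (0, ω (v 1)), (v 2, 0), (0, ω (v 3))]
  rw [Fin.sum_univ_four] at hK
  simp only [hF] at hK
  have u0 : ∀ x : V, ∀ x' : Dual k V, Function.update (![(v 0, 0), (0, ω (v 1)), (v 2, 0), (0, ω (v 3))] :
      Fin 4 → V × Dual k V) 0 (x, x') = ![(x, x'), (0, ω (v 1)), (v 2, 0), (0, ω (v 3))] := by
    intro x x'
    funext i
    fin_cases i <;> rfl
  have u1 : ∀ x : V, ∀ x' : Dual k V, Function.update (![(v 0, 0), (0, ω (v 1)), (v 2, 0), (0, ω (v 3))] :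
      Fin 4 → V × Dual k V) 1 (x, x') = ![(v 0, 0), (x, x'), (v 2, 0), (0, ω (v 3))] := by
    intro x x'
    funext i
    fin_cases i <;> rfl
  have u2 : ∀ x : V, ∀ x' : Dual k V, Function.update (![(v 0, 0), (0, ω (v 1)), (v 2, 0), (0, ω (v 3))] :
      Fin 4 → V × Dual k V) 2 (x, x') = ![(v 0, 0), (0, ω (v 1)), (x, x'), (0, ω (v 3))] := by
    intro x x'
    funext i
    fin_cases i <;> rfl
  have u3 : ∀ x : V, ∀ x' : Dual k V, Function.update (![(v 0, 0), (0, ω (v 1)), (v 2, 0), (0, ω (v 3))] :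
      Fin 4 → V × Dual k V) 3 (x, x') = ![(v 0, 0), (0, ω (v 1)), (v 2, 0), (x, x')] := by
    intro x x'
    funext i
    fin_cases i <;> rfl
  have l0 : lie X ((![(v 0, 0), (0, ω (v 1)), (v 2, 0), (0, ω (v 3))] : Fin 4 → V × Dual k V) 0) =
      (X (v 0), -(X.dualMap 0)) := rfl
  have l1 : lie X ((![(v 0, 0), (0, ω (v 1)), (v 2, 0), (0, ω (v 3))] : Fin 4 → V × Dual k V) 1) =
      (X 0, -(X.dualMap (ω (v 1)))) := rfl
  have l2 : lie X ((![(v 0, 0), (0, ω (v 1)), (v 2, 0), (0, ω (v 3))] : Fin 4 → V × Dual k V) 2) =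
      (X (v 2), -(X.dualMap 0)) := rfl
  have l3 : lie X ((![(v 0, 0), (0, ω (v 1)), (v 2, 0), (0, ω (v 3))] : Fin 4 → V × Dual k V) 3) =
      (X 0, -(X.dualMap (ω (v 3)))) := rfl
  rw [l0, l1, l2, l3, u0, u1, u2, u3] at hK
  simp only [Matrix.cons_val_zero, Matrix.cons_val_one, Matrix.cons_val, hes', hdlie] at hK
  have hv : v = ![v 0, v 1, v 2, v 3] := by
    funext i
    fin_cases i <;> rfl
  have hsub1 : φ ![v 0, X (v 1) - c • v 1, v 2, v 3] =
      φ ![v 0, X (v 1), v 2, v 3] - c * φ ![v 0, v 1, v 2, v 3] := by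
    have h1 := φ.map_update_sub ![v 0, v 1, v 2, v 3] 1 (X (v 1)) (c • v 1)
    have h2 := φ.map_update_smul ![v 0, v 1, v 2, v 3] 1 c (v 1)
    have e1 : ∀ x : V, Function.update (![v 0, v 1, v 2, v 3] : Fin 4 → V) 1 x =
        ![v 0, x, v 2, v 3] := by
      intro x
      funext i
      fin_cases i <;> rfl
    rw [e1, e1, e1] at h1
    rw [e1, e1] at h2
    rw [h1, h2, smul_eq_mul]
  have hsub3 : φ ![v 0, v 1, v 2, X (v 3) - c • v 3] =
      φ ![v 0, v 1, v 2, X (v 3)] - c * φ ![v 0, v 1, v 2, v 3] := by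
    have h1 := φ.map_update_sub ![v 0, v 1, v 2, v 3] 3 (X (v 3)) (c • v 3)
    have h2 := φ.map_update_smul ![v 0, v 1, v 2, v 3] 3 c (v 3)
    have e1 : ∀ x : V, Function.update (![v 0, v 1, v 2, v 3] : Fin 4 → V) 3 x =
        ![v 0, v 1, v 2, x] := by
      intro x
      funext i
      fin_cases i <;> rfl
    rw [e1, e1, e1] at h1
    rw [e1, e1] at h2
    rw [h1, h2, smul_eq_mul]
  rw [hsub1, hsub3] at hK
  rw [sum_update (fun w => φ w) X v, congrArg φ hv]
  linear_combination hK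

end form

end

end Pool.Agent.V5helper84.QT
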