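import Pool.Agent.V5helper84.QT.Core

/-!
# The Tate tensors of type (2, 2) decide
-/

set_option autoImplicit false
set_option linter.unusedSectionVars false

namespace Pool.Agent.V5helper84.QT

open Module Pool.Agent.Y114.RM Pool.Agent.Y114.TF Pool.Agent.H204R3.GP Pool.Agent.R913.Adj
  Pool.Agent

noncomputable section

section gen

variable {k : Type} [Field k] [CharZero k] {V : Type} [AddCommGroup V] [Module k V]
  [FiniteDimensional k V] {Γ : Type} [Group Γ] (ρ : Representation k Γ V)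
  (𝔤 : Submodule k (End k V))

/-- Every linear map from `End V` to itself which commutes with the conjugations by the elements of
a subgroup of finite index commutes with the brackets with the elements of `𝔤`. -/
def Quartic : Prop := ∀ p : End k (End k V),
  (∃ Δ : Subgroup Γ, Δ.FiniteIndex ∧ ∀ γ ∈ Δ, ∀ Y, p (ρ γ * Y * ρ γ⁻¹) = ρ γ * p Y * ρ γ⁻¹) →
    ∀ X ∈ 𝔤, ∀ Y, p (X * Y - Y * X) = X * p Y - p Y * X

/-- Every subspace of `End V` which is stable under the conjugations by the elements of a subgroup of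
finite index is stable under the brackets with the elements of `𝔤`. -/
def SubStable : Prop := ∀ U : Submodule k (End k V),
  (∃ Δ : Subgroup Γ, Δ.FiniteIndex ∧ ∀ γ ∈ Δ, ∀ Y ∈ U, ρ γ * Y * ρ γ⁻¹ ∈ U) →
    ∀ X ∈ 𝔤, ∀ Y ∈ U, X * Y - Y * X ∈ U

/-- The endomorphisms of `V` which commute with a subgroup of finite index commute with `𝔤`. -/
def EndoT : Prop := ∀ P : End k V,
  (∃ Δ : Subgroup Γ, Δ.FiniteIndex ∧ ∀ γ ∈ Δ, P * ρ γ = ρ γ * P) → ∀ X ∈ 𝔤, X * P = P * X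

/-- The centre of `𝔤` kills all Tate tensors. -/
def CentreT : Prop := ∀ z ∈ 𝔤, (∀ X ∈ 𝔤, z * X = X * z) →
  ∀ (m : ℕ) (φ : Tensor k V m), TateTensor ρ φ → KillsTensor z φ

variable {ρ 𝔤}

theorem conj_cancel (γ : Γ) (Y Z : End k V) :
    (ρ γ * Y * ρ γ⁻¹) * (ρ γ * Z * ρ γ⁻¹) = ρ γ * (Y * Z) * ρ γ⁻¹ := by
  have h1 : (ρ γ * Y * ρ γ⁻¹) * (ρ γ * Z * ρ γ⁻¹) =
      ρ γ * Y * (ρ γ⁻¹ * ρ γ) * Z * ρ γ⁻¹ := by noncomm_ring
  rw [h1, rim, mul_one]
  noncomm_ring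

theorem Quartic.endo (h : Quartic ρ 𝔤) : EndoT ρ 𝔤 := by
  rintro P ⟨Δ, hΔ, hP⟩ X hX
  have h1 := h (LinearMap.mulLeft k P) ⟨Δ, hΔ, fun γ hγ Y => by
    rw [LinearMap.mulLeft_apply, LinearMap.mulLeft_apply, ← mul_assoc, ← mul_assoc, hP γ hγ]
    noncomm_ring⟩ X hX 1
  rw [LinearMap.mulLeft_apply, LinearMap.mulLeft_apply, mul_one, mul_one, one_mul, sub_self,
    mul_zero] at h1
  exact (sub_eq_zero.1 h1.symm)

theorem SubStable.endo (h : SubStable ρ 𝔤) : EndoT ρ 𝔤 := by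
  rintro P ⟨Δ, hΔ, hP⟩ X hX
  have key : ∀ a : k, X * P - P * X ∈ Submodule.span k {P + a • (1 : End k V)} := by
    intro a
    have h1 := h (Submodule.span k {P + a • (1 : End k V)}) ⟨Δ, hΔ, fun γ hγ Y hY => by
      obtain ⟨c, rfl⟩ := Submodule.mem_span_singleton.1 hY
      refine Submodule.mem_span_singleton.2 ⟨c, ?_⟩
      have h2 : ρ γ * (c • (P + a • (1 : End k V))) * ρ γ⁻¹ =
          c • ((ρ γ * P) * ρ γ⁻¹ + a • (ρ γ * ρ γ⁻¹)) := by
        simp only [mul_smul_comm, smul_mul_assoc, mul_add, add_mul, mul_one]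
      rw [h2, ← hP γ hγ, mul_assoc, rmi, mul_one]⟩ X hX _ (Submodule.mem_span_singleton_self _)
    have h3 : X * (P + a • (1 : End k V)) - (P + a • (1 : End k V)) * X = X * P - P * X := by
      simp only [mul_add, add_mul, mul_smul_comm, smul_mul_assoc, mul_one, one_mul]
      abel
    rwa [h3] at h1
  obtain ⟨c, hc⟩ := Submodule.mem_span_singleton.1 (key 0)
  obtain ⟨d, hd⟩ := Submodule.mem_span_singleton.1 (key 1)
  rw [zero_smul, add_zero] at hc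
  rw [one_smul] at hd
  by_cases hcd : c = d
  · subst hcd
    rw [← hc, smul_add] at hd
    have h4 : c • (1 : End k V) = 0 := by
      have h5 := sub_eq_zero.2 hd
      rwa [add_sub_cancel_left] at h5
    have h5 : c • P = 0 := by
      have h6 : c • P = (c • (1 : End k V)) * P := by rw [smul_mul_assoc, one_mul]
      rw [h6, h4, zero_mul]
    rw [h5] at hc
    exact sub_eq_zero.1 hc.symm
  · have h4 : (c - d) • P = d • (1 : End k V) := by
      rw [sub_smul, sub_eq_iff_eq_add, hc, ← hd, smul_add, add_comm]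
    have h5 : P = ((c - d)⁻¹ * d) • (1 : End k V) := by
      rw [mul_smul, ← h4, smul_smul, inv_mul_cancel₀ (sub_ne_zero.2 hcd), one_smul]
    rw [h5, mul_smul_comm, smul_mul_assoc, mul_one, one_mul]

/-- stable subspaces of `V` -/
theorem SubStable.stable (h : SubStable ρ 𝔤) {W : Submodule k V} {Δ : Subgroup Γ}
    (hΔ : Δ.FiniteIndex) (hW : ∀ s ∈ Δ, ∀ u ∈ W, ρ s u ∈ W) : StableUnder 𝔤 W := by
  intro X hX u hu
  by_cases hu0 : u = 0
  · rw [hu0, map_zero]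
    exact W.zero_mem
  obtain ⟨f, hf⟩ : ∃ f : Dual k V, f u = 1 := by
    obtain ⟨f, hf⟩ : ∃ f : Dual k V, f u ≠ 0 := by
      by_contra hcon
      push Not at hcon
      exact hu0 ((Module.forall_dual_apply_eq_zero_iff k u).1 hcon)
    exact ⟨(f u)⁻¹ • f, by rw [LinearMap.smul_apply, smul_eq_mul, inv_mul_cancel₀ hf]⟩
  let U : Submodule k (End k V) :=
    { carrier := {Y | ∀ v, Y v ∈ W}
      add_mem' := fun ha hb v => W.add_mem (ha v) (hb v)
      zero_mem' := fun v => W.zero_mem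
      smul_mem' := fun c a ha v => W.smul_mem c (ha v) }
  have h1 := h U ⟨Δ, hΔ, fun γ hγ Y hY v => by
    rw [Module.End.mul_apply, Module.End.mul_apply]
    exact hW γ hγ _ (hY _)⟩ X hX (rk u f) (fun v => by
      rw [rk_apply]
      exact W.smul_mem _ hu) u
  rw [LinearMap.sub_apply, Module.End.mul_apply, Module.End.mul_apply, rk_apply, rk_apply, hf,
    one_smul] at h1
  have h2 := W.add_mem h1 (W.smul_mem (f (X u)) hu)
  rwa [sub_add_cancel] at h2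

end gen

section orth

variable {k : Type} [Field k] {V : Type} [AddCommGroup V] [Module k V] [FiniteDimensional k V]
  {L : Submodule k (End k V)}

/-- the orthogonal projection to `L` for the trace form -/
theorem exists_proj (hnd : NonDeg L) : ∃ p : End k (End k V), (∀ X, p X ∈ L) ∧
    ∀ X, ∀ Y ∈ L, LinearMap.trace k V (X * Y) = LinearMap.trace k V (p X * Y) := by
  let B : End k V →ₗ[k] Dual k L :=
    { toFun := fun X => (LinearMap.trace k V).comp ((LinearMap.mulLeft k X).comp L.subtype)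
      map_add' := fun X Y => by
        refine LinearMap.ext fun Z => ?_
        change LinearMap.trace k V ((X + Y) * (Z : End k V)) = LinearMap.trace k V (X * Z) +
          LinearMap.trace k V (Y * Z)
        rw [add_mul, map_add]
      map_smul' := fun c X => by
        refine LinearMap.ext fun Z => ?_
        change LinearMap.trace k V ((c • X) * (Z : End k V)) = c • LinearMap.trace k V (X * Z)
        rw [smul_mul_assoc, map_smul] }
  have hinj : Function.Injective (B.comp L.subtype) := by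
    rw [← LinearMap.ker_eq_bot, eq_bot_iff]
    intro X hX
    rw [LinearMap.mem_ker] at hX
    refine (Submodule.mem_bot k).2 (Subtype.ext (hnd X X.2 fun Y hY => ?_))
    exact LinearMap.congr_fun hX ⟨Y, hY⟩
  let e : L ≃ₗ[k] Dual k L := LinearEquiv.ofInjectiveOfFinrankEq (B.comp L.subtype) hinj
    (Subspace.dual_finrank_eq (K := k) (V := L)).symm
  refine ⟨L.subtype.comp (e.symm.toLinearMap.comp B), fun X => (e.symm (B X)).2, fun X Y hY => ?_⟩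
  have h1 : e (e.symm (B X)) = B X := e.apply_symm_apply _
  exact (LinearMap.congr_fun h1 ⟨Y, hY⟩).symm

theorem proj_unique (hnd : NonDeg L) {A B : End k V} (hA : A ∈ L) (hB : B ∈ L)
    (h : ∀ Y ∈ L, LinearMap.trace k V (A * Y) = LinearMap.trace k V (B * Y)) : A = B := by
  refine sub_eq_zero.1 (hnd _ (L.sub_mem hA hB) fun Y hY => ?_)
  rw [sub_mul, map_sub, h Y hY, sub_self]

/-- an operator which normalizes `L` is the sum of an element of `L` and an operator which commutes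
with `L` -/
theorem exists_split (hnd : NonDeg L) (hLie : IsLie L) {X : End k V}
    (hX : ∀ Y ∈ L, X * Y - Y * X ∈ L) : ∃ l ∈ L, ∀ Y ∈ L, (X - l) * Y = Y * (X - l) := by
  obtain ⟨p, hp, hp'⟩ := exists_proj hnd
  refine ⟨p X, hp X, fun Y hY => ?_⟩
  rw [← sub_eq_zero]
  have h1 : (X - p X) * Y - Y * (X - p X) = (X * Y - Y * X) - (p X * Y - Y * p X) := by
    noncomm_ring
  refine hnd _ ?_ fun Z hZ => ?_
  · rw [h1]
    exact L.sub_mem (hX Y hY) (hLie _ (hp X) _ hY)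
  · have h2 : LinearMap.trace k V (((X - p X) * Y - Y * (X - p X)) * Z) =
        LinearMap.trace k V ((X - p X) * (Y * Z - Z * Y)) := by
      have e1 : ((X - p X) * Y - Y * (X - p X)) * Z =
          (X - p X) * (Y * Z) - Y * ((X - p X) * Z) := by noncomm_ring
      have e2 : (X - p X) * (Y * Z - Z * Y) = (X - p X) * (Y * Z) - (X - p X) * Z * Y := by
        noncomm_ring
      rw [e1, e2, map_sub, map_sub, LinearMap.trace_mul_comm k Y]
    rw [h2, sub_mul, map_sub, hp' X _ (hLie Y hY Z hZ), sub_self]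

end orth

section main

variable {ι : Type} [Fintype ι] [DecidableEq ι] {n : ι → ℕ} {ℓ : ℕ} [hℓ : Fact ℓ.Prime]
  {Γ : Type} [Group Γ] [TopologicalSpace Γ] [IsTopologicalGroup Γ] [CompactSpace Γ]
  (ρ : ∀ i, Representation ℚ_[ℓ] Γ (Fin (n i) → ℚ_[ℓ]))
  {𝔤 : Submodule ℚ_[ℓ] (End ℚ_[ℓ] (∀ i, Fin (n i) → ℚ_[ℓ]))}

/-- the Lie algebra of the Tate tensors -/
theorem exists_L (h𝔤 : IsMotivic ρ 𝔤) (hss : FiniteIndexSemisimple (sumRep ρ)) :
    ∃ L : Submodule ℚ_[ℓ] (End ℚ_[ℓ] (∀ i, Fin (n i) → ℚ_[ℓ])), L ≤ 𝔤 ∧ NonDeg L ∧ IsLie L ∧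
      (∀ γ, ∀ X ∈ L, sumRep ρ γ * X * sumRep ρ γ⁻¹ ∈ L) ∧
      (∀ X, X ∈ L ↔ ∀ (m : ℕ) (φ : Tensor ℚ_[ℓ] (∀ i, Fin (n i) → ℚ_[ℓ]) m),
        TateTensor (sumRep ρ) φ → KillsTensor X φ) ∧
      ((∀ i, Continuous fun g => LinearMap.toMatrix' (ρ i g)) →
        ∃ Δ : Subgroup Γ, Δ.FiniteIndex ∧ ∀ γ ∈ Δ, ∀ Y, (∀ X ∈ L, X * Y = Y * X) →
          sumRep ρ γ * Y = Y * sumRep ρ γ) := by
  obtain ⟨L, hL, hLie, hAd, -⟩ := Y41.RM.lieL' ℚ_[ℓ] (∀ i, Fin (n i) → ℚ_[ℓ]) Γ (sumRep ρ)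
  have hnd : NonDeg L := nonDeg_of_semisimple hss hL hLie hAd
  refine ⟨L, fun X hX => h𝔤.algebraic X fun m φ h => ((hL X).1 hX).2 m φ (h𝔤.tate m φ h), hnd,
    hLie, fun γ X hX => ?_, fun X => ⟨fun hX => ((hL X).1 hX).2, fun hX =>
      (hL X).2 (mem_LT_of_semisimple (sumRep ρ) hss hX)⟩, fun hρ => ?_⟩
  · have h1 := hAd γ X hX
    rwa [AdE_apply, ← mul_assoc] at h1
  · exact Y220.RM.tfr ℓ ι n Γ ρ hρ (R913.Adj.comm L) (comm_conj hAd) (comm_order hL)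

/-- if `𝔤` normalizes the Lie algebra of the Tate tensors, they are equal -/
theorem le_of_norm (hρ : ∀ i, Continuous fun g => LinearMap.toMatrix' (ρ i g))
    (h𝔤 : IsMotivic ρ 𝔤) (hss : FiniteIndexSemisimple (sumRep ρ)) (hE : EndoT (sumRep ρ) 𝔤)
    (hC : CentreT (sumRep ρ) 𝔤)
    (hN : ∀ L : Submodule ℚ_[ℓ] (End ℚ_[ℓ] (∀ i, Fin (n i) → ℚ_[ℓ])), NonDeg L →
      (∀ γ, ∀ X ∈ L, sumRep ρ γ * X * sumRep ρ γ⁻¹ ∈ L) →
      ∀ X ∈ 𝔤, ∀ Y ∈ L, X * Y - Y * X ∈ L)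
    (m : ℕ) (φ : Tensor ℚ_[ℓ] (∀ i, Fin (n i) → ℚ_[ℓ]) m) :
    TateTensor (sumRep ρ) φ ↔ ∀ X ∈ 𝔤, KillsTensor X φ := by
  refine ⟨fun hφ X hX => ?_, fun hφ => h𝔤.tate m φ hφ⟩
  obtain ⟨L, hLG, hnd, hLie, hAd, hL, hfin⟩ := exists_L ρ h𝔤 hss
  obtain ⟨l, hl, hz⟩ := exists_split hnd hLie (hN L hnd hAd X hX)
  obtain ⟨Δ, hΔ, hc⟩ := hfin hρ
  have h1 := hE (X - l) ⟨Δ, hΔ, fun γ hγ => (hc γ hγ _ fun Y hY => (hz Y hY).symm).symm⟩
  have hz𝔤 : X - l ∈ 𝔤 := 𝔤.sub_mem hX (hLG hl)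
  have h2 : X - l ∈ L := (hL _).2 (hC (X - l) hz𝔤 fun Y hY => (h1 Y hY).symm)
  have h3 : X ∈ L := by
    have := L.add_mem h2 hl
    rwa [sub_add_cancel] at this
  exact (hL X).1 h3 m φ hφ

theorem tate_of_quartic (hρ : ∀ i, Continuous fun g => LinearMap.toMatrix' (ρ i g))
    (h𝔤 : IsMotivic ρ 𝔤) (hss : FiniteIndexSemisimple (sumRep ρ)) (hQ : Quartic (sumRep ρ) 𝔤)
    (hC : CentreT (sumRep ρ) 𝔤) (m : ℕ) (φ : Tensor ℚ_[ℓ] (∀ i, Fin (n i) → ℚ_[ℓ]) m) :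
    TateTensor (sumRep ρ) φ ↔ ∀ X ∈ 𝔤, KillsTensor X φ := by
  refine le_of_norm ρ hρ h𝔤 hss hQ.endo hC (fun L hnd hAd X hX Y hY => ?_) m φ
  obtain ⟨p, hp, hp'⟩ := exists_proj hnd
  have hpL : ∀ Z ∈ L, p Z = Z := fun Z hZ =>
    proj_unique hnd (hp Z) hZ fun T hT => (hp' Z T hT).symm
  have h1 := hQ p ⟨⊤, inferInstance, fun γ _ Z => ?_⟩ X hX Y
  · rw [hpL Y hY] at h1
    rw [← h1]
    exact hp _
  · refine proj_unique hnd (hp _) (hAd γ _ (hp Z)) fun T hT => ?_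
    rw [← hp' _ T hT]
    have h2 : sumRep ρ γ⁻¹ * T * sumRep ρ γ ∈ L := by
      have h3 := hAd γ⁻¹ T hT
      rwa [inv_inv] at h3
    have e1 : ∀ A : End ℚ_[ℓ] (∀ i, Fin (n i) → ℚ_[ℓ]),
        LinearMap.trace ℚ_[ℓ] _ (sumRep ρ γ * A * sumRep ρ γ⁻¹ * T) =
          LinearMap.trace ℚ_[ℓ] _ (A * (sumRep ρ γ⁻¹ * T * sumRep ρ γ)) := by
      intro A
      have e2 : sumRep ρ γ * A * sumRep ρ γ⁻¹ * T = sumRep ρ γ * (A * (sumRep ρ γ⁻¹ * T)) := by
        noncomm_ring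
      rw [e2, LinearMap.trace_mul_comm]
      congr 1
    rw [e1, e1, hp' Z _ h2]

theorem semisimple_of_sub (h𝔤 : IsMotivic ρ 𝔤) (hS : SubStable (sumRep ρ) 𝔤) :
    FiniteIndexSemisimple (sumRep ρ) := by
  intro Δ hΔ U hU
  have hGU : StableUnder 𝔤 U := hS.stable hΔ hU
  obtain ⟨U', hGU', hcompl⟩ := h𝔤.semisimple U hGU
  let P : End ℚ_[ℓ] (∀ i, Fin (n i) → ℚ_[ℓ]) :=
    U.subtype ∘ₗ Submodule.projectionOnto U U' hcompl
  have hP : ∀ x, P x ∈ U := fun x => (Submodule.projectionOnto U U' hcompl x).2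
  have hP' : ∀ u ∈ U, P u = u := by
    intro u hu
    change ((Submodule.projectionOnto U U' hcompl u : U) : ∀ i, Fin (n i) → ℚ_[ℓ]) = u
    rw [Submodule.projectionOnto_apply_left hcompl ⟨u, hu⟩]
  have hP0 : ∀ u ∈ U', P u = 0 := by
    intro u hu
    change ((Submodule.projectionOnto U U' hcompl u : U) : ∀ i, Fin (n i) → ℚ_[ℓ]) = 0
    rw [Submodule.projectionOnto_apply_right hcompl ⟨u, hu⟩]
    rfl
  have hPX : ∀ X ∈ 𝔤, ∀ x, P (X x) = X (P x) := by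
    intro X hX x
    have hx : x ∈ U ⊔ U' := by
      rw [hcompl.sup_eq_top]
      exact Submodule.mem_top
    obtain ⟨u, hu, u', hu', rfl⟩ := Submodule.mem_sup.1 hx
    rw [map_add, map_add, map_add, hP' u hu, hP0 u' hu', hP' _ (hGU X hX u hu),
      hP0 _ (hGU' X hX u' hu'), add_zero, add_zero]
  let ω : ((∀ i, Fin (n i) → ℚ_[ℓ]) × Dual ℚ_[ℓ] (∀ i, Fin (n i) → ℚ_[ℓ])) →ₗ[ℚ_[ℓ]]
      ((∀ i, Fin (n i) → ℚ_[ℓ]) × Dual ℚ_[ℓ] (∀ i, Fin (n i) → ℚ_[ℓ])) →ₗ[ℚ_[ℓ]] ℚ_[ℓ] :=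
    LinearMap.mk₂ ℚ_[ℓ] (fun a b => b.2 (P a.1))
      (fun a a' b => by rw [Prod.fst_add, map_add, map_add])
      (fun c a b => by rw [Prod.smul_fst, map_smul, map_smul])
      (fun a b b' => by rw [Prod.snd_add, LinearMap.add_apply])
      (fun c a b => by rw [Prod.smul_snd, LinearMap.smul_apply])
  let φ : Tensor ℚ_[ℓ] (∀ i, Fin (n i) → ℚ_[ℓ]) 2 := Pool.Agent.H204R3.SP.bil2 ω
  have hφ : ∀ v, φ v = (v 1).2 (P (v 0).1) := fun v => rfl
  obtain ⟨Δ', hΔ', hfix⟩ := h𝔤.tate 2 φ (by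
    intro X hX v
    rw [Fin.sum_univ_two, hφ, hφ, Function.update_self, Function.update_self,
      Function.update_of_ne Fin.zero_ne_one.symm, Function.update_of_ne Fin.zero_ne_one]
    change (v 1).2 (P (X (v 0).1)) + -((v 1).2 (X (P (v 0).1))) = 0
    rw [hPX X hX]
    ring)
  have hc : ∀ s ∈ Δ', P * sumRep ρ s = sumRep ρ s * P := by
    intro s hs
    refine LinearMap.ext fun x => ?_
    have h1 : sumRep ρ s⁻¹ (P (sumRep ρ s x)) = P x := by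
      rw [← sub_eq_zero, ← Module.forall_dual_apply_eq_zero_iff ℚ_[ℓ]]
      intro ξ
      have h2 := hfix s hs ![(x, 0), (0, ξ)]
      rw [hφ, hφ] at h2
      change ξ (sumRep ρ s⁻¹ (P (sumRep ρ s x))) = ξ (P x) at h2
      rw [map_sub, h2, sub_self]
    rw [Module.End.mul_apply, Module.End.mul_apply, ← h1]
    rw [← Module.End.mul_apply (sumRep ρ s), ← map_mul, mul_inv_cancel, map_one]
    rfl
  exact Y41.RM.exists_compl_of_commute (sumRep ρ) Δ Δ' hΔ' U hU P hP hP' hc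

theorem tate_of_sub (hρ : ∀ i, Continuous fun g => LinearMap.toMatrix' (ρ i g))
    (h𝔤 : IsMotivic ρ 𝔤) (hS : SubStable (sumRep ρ) 𝔤) (hC : CentreT (sumRep ρ) 𝔤) (m : ℕ)
    (φ : Tensor ℚ_[ℓ] (∀ i, Fin (n i) → ℚ_[ℓ]) m) :
    TateTensor (sumRep ρ) φ ↔ ∀ X ∈ 𝔤, KillsTensor X φ :=
  le_of_norm ρ hρ h𝔤 (semisimple_of_sub ρ h𝔤 hS) hS.endo hC
    (fun L _ hAd X hX Y hY => hS L ⟨⊤, inferInstance, fun γ _ => hAd γ⟩ X hX Y hY) m φ

/-- the converse -/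
theorem quartic_of_tate {k V : Type} [Field k] [CharZero k] [AddCommGroup V] [Module k V]
    [FiniteDimensional k V] {Γ : Type} [Group Γ] {ρ : Representation k Γ V}
    {𝔤 : Submodule k (End k V)}
    (h : ∀ (m : ℕ) (φ : Tensor k V m), TateTensor ρ φ → ∀ X ∈ 𝔤, KillsTensor X φ) :
    Quartic ρ 𝔤 ∧ CentreT ρ 𝔤 := by
  refine ⟨?_, fun z hz _ m φ hφ => h m φ hφ z hz⟩
  rintro p ⟨Δ, hΔ, hp⟩ X hX Y
  exact kills_ten (h 4 _ (tate_ten hΔ hp) X hX) Y

/-- the centre of a motive with pure summands, if it consists of weight operators -/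
theorem centre_of_weight (hss : FiniteIndexSemisimple (sumRep ρ)) {w : ι → ℤ} {γ : Γ}
    (hγ : ActsPurely ρ w γ)
    (h : ∀ z ∈ 𝔤, (∀ X ∈ 𝔤, z * X = X * z) →
      ∃ c : ℚ_[ℓ], ∀ x i, z x i = (c * w i) • x i) : CentreT (sumRep ρ) 𝔤 := by
  intro z hz hzc m φ hφ
  obtain ⟨c, hc⟩ := h z hz hzc
  have h1 : z = c • weightOp (k := ℚ_[ℓ]) (fun i => Fin (n i) → ℚ_[ℓ]) w := by
    refine LinearMap.ext fun x => funext fun i => ?_
    rw [hc, mul_smul]
    rfl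
  obtain ⟨L, hL, -, -, -⟩ := Y41.RM.lieL' ℚ_[ℓ] (∀ i, Fin (n i) → ℚ_[ℓ]) Γ (sumRep ρ)
  have h2 : weightOp (k := ℚ_[ℓ]) (fun i => Fin (n i) → ℚ_[ℓ]) w ∈ L :=
    (hL _).2 (mem_LT_of_semisimple (sumRep ρ) hss fun m φ hφ => weight_kills ρ hss hγ m φ hφ)
  rw [h1]
  exact ((hL _).1 (L.smul_mem c h2)).2 m φ hφ

end main

end

end Pool.Agent.V5helper84.QT
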