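import Pool.Agent.V5helper84.QT.Main

/-!
# Lie algebras which are stable under an open subgroup
-/

set_option autoImplicit false
set_option linter.unusedSectionVars false

namespace Pool.Agent.V5helper84.QT

open Module Pool.Agent.Y114.RM Pool.Agent.Y114.TF Pool.Agent.H204R3.GP Pool.Agent.R913.Adj
  Pool.Agent

noncomputable section

section gen

variable {k : Type} [Field k] [CharZero k] {V : Type} [AddCommGroup V] [Module k V]
  [FiniteDimensional k V] {Γ : Type} [Group Γ] (ρ : Representation k Γ V)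
  (𝔤 : Submodule k (End k V))

/-- Every Lie algebra of endomorphisms of `V` which is stable under the conjugations by the elements
of a subgroup of finite index is stable under the brackets with the elements of `𝔤`. -/
def LieStable : Prop := ∀ U : Submodule k (End k V), IsLie U →
  (∃ Δ : Subgroup Γ, Δ.FiniteIndex ∧ ∀ γ ∈ Δ, ∀ Y ∈ U, ρ γ * Y * ρ γ⁻¹ ∈ U) →
    ∀ X ∈ 𝔤, ∀ Y ∈ U, X * Y - Y * X ∈ U

/-- The Tate tensors which are killed by the brackets of elements of `𝔤` are killed by `𝔤`. -/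
def AbelianT : Prop := ∀ (m : ℕ) (φ : Tensor k V m), TateTensor ρ φ →
  (∀ X ∈ 𝔤, ∀ Y ∈ 𝔤, KillsTensor (X * Y - Y * X) φ) → ∀ X ∈ 𝔤, KillsTensor X φ

/-- `𝔤` normalizes the Lie algebra of the endomorphisms which kill all Tate tensors. -/
def Normal : Prop := ∀ X ∈ 𝔤, ∀ Y : End k V,
  (∀ (m : ℕ) (φ : Tensor k V m), TateTensor ρ φ → KillsTensor Y φ) →
    ∀ (m : ℕ) (φ : Tensor k V m), TateTensor ρ φ → KillsTensor (X * Y - Y * X) φ

variable {ρ 𝔤}

theorem isLie_span (A : End k V) : IsLie (Submodule.span k {A}) := by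
  intro X hX Y hY
  obtain ⟨c, rfl⟩ := Submodule.mem_span_singleton.1 hX
  obtain ⟨d, rfl⟩ := Submodule.mem_span_singleton.1 hY
  have h1 : (c • A) * (d • A) - (d • A) * (c • A) = 0 := by
    simp only [mul_smul_comm, smul_mul_assoc]
    rw [smul_comm, sub_self]
  rw [h1]
  exact Submodule.zero_mem _

theorem LieStable.endo (h : LieStable ρ 𝔤) : EndoT ρ 𝔤 := by
  rintro P ⟨Δ, hΔ, hP⟩ X hX
  have key : ∀ a : k, X * P - P * X ∈ Submodule.span k {P + a • (1 : End k V)} := by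
    intro a
    have h1 := h (Submodule.span k {P + a • (1 : End k V)}) (isLie_span _)
      ⟨Δ, hΔ, fun γ hγ Y hY => by
      obtain ⟨c, rfl⟩ := Submodule.mem_span_singleton.1 hY
      refine Submodule.mem_span_singleton.2 ⟨c, ?_⟩
      have h2 : ρ γ * (c • (P + a • (1 : End k V))) * ρ γ⁻¹ =
          c • ((ρ γ * P) * ρ γ⁻¹ + a • (ρ γ * ρ γ⁻¹)) := by
        simp only [mul_smul_comm, smul_mul_assoc, mul_add, add_mul, mul_one]
      rw [h2, ← hP γ hγ, mul_assoc, rmi, mul_one]⟩ X hX _ (Submodule.mem_span_singleton_self _)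
    have h3 : X * (P + a • (1 : End k V)) - (P + a • (1 : End k V)) * X = X * P - P * X := by
      simp only [mul_add, add_mul, mul_smul_comm, smul_mul_assoc, mul_one, one_mul]
      abel
    rwa [h3] at h1
  obtain ⟨c, hc⟩ := Submodule.mem_span_singleton.1 (key 0)
  obtain ⟨d, hd⟩ := Submodule.mem_span_singleton.1 (key 1)
  rw [zero_smul, add_zero] at hc
  rw [one_smul] at hd
  by_cases hcd : c = d
  · subst hcd
    rw [← hc, smul_add] at hd
    have h4 : c • (1 : End k V) = 0 := by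
      have h5 := sub_eq_zero.2 hd
      rwa [add_sub_cancel_left] at h5
    have h5 : c • P = 0 := by
      have h6 : c • P = (c • (1 : End k V)) * P := by rw [smul_mul_assoc, one_mul]
      rw [h6, h4, zero_mul]
    rw [h5] at hc
    exact sub_eq_zero.1 hc.symm
  · have h4 : (c - d) • P = d • (1 : End k V) := by
      rw [sub_smul, sub_eq_iff_eq_add, hc, ← hd, smul_add, add_comm]
    have h5 : P = ((c - d)⁻¹ * d) • (1 : End k V) := by
      rw [mul_smul, ← h4, smul_smul, inv_mul_cancel₀ (sub_ne_zero.2 hcd), one_smul]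
    rw [h5, mul_smul_comm, smul_mul_assoc, mul_one, one_mul]

/-- stable subspaces of `V` -/
theorem LieStable.stable (h : LieStable ρ 𝔤) {W : Submodule k V} {Δ : Subgroup Γ}
    (hΔ : Δ.FiniteIndex) (hW : ∀ s ∈ Δ, ∀ u ∈ W, ρ s u ∈ W) : StableUnder 𝔤 W := by
  intro X hX u hu
  by_cases hu0 : u = 0
  · rw [hu0, map_zero]
    exact W.zero_mem
  obtain ⟨f, hf⟩ : ∃ f : Dual k V, f u = 1 := by
    obtain ⟨f, hf⟩ : ∃ f : Dual k V, f u ≠ 0 := by
      by_contra hcon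
      push Not at hcon
      exact hu0 ((Module.forall_dual_apply_eq_zero_iff k u).1 hcon)
    exact ⟨(f u)⁻¹ • f, by rw [LinearMap.smul_apply, smul_eq_mul, inv_mul_cancel₀ hf]⟩
  let U : Submodule k (End k V) :=
    { carrier := {Y | ∀ v, Y v ∈ W}
      add_mem' := fun ha hb v => W.add_mem (ha v) (hb v)
      zero_mem' := fun v => W.zero_mem
      smul_mem' := fun c a ha v => W.smul_mem c (ha v) }
  have h1 := h U (fun Y hY Z hZ v => by
    rw [LinearMap.sub_apply, Module.End.mul_apply, Module.End.mul_apply]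
    exact W.sub_mem (hY _) (hZ _)) ⟨Δ, hΔ, fun γ hγ Y hY v => by
    rw [Module.End.mul_apply, Module.End.mul_apply]
    exact hW γ hγ _ (hY _)⟩ X hX (rk u f) (fun v => by
      rw [rk_apply]
      exact W.smul_mem _ hu) u
  rw [LinearMap.sub_apply, Module.End.mul_apply, Module.End.mul_apply, rk_apply, rk_apply, hf,
    one_smul] at h1
  have h2 := W.add_mem h1 (W.smul_mem (f (X u)) hu)
  rwa [sub_add_cancel] at h2

end gen

section main

variable {ι : Type} [Fintype ι] [DecidableEq ι] {n : ι → ℕ} {ℓ : ℕ} [hℓ : Fact ℓ.Prime]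
  {Γ : Type} [Group Γ] [TopologicalSpace Γ] [IsTopologicalGroup Γ] [CompactSpace Γ]
  (ρ : ∀ i, Representation ℚ_[ℓ] Γ (Fin (n i) → ℚ_[ℓ]))
  {𝔤 : Submodule ℚ_[ℓ] (End ℚ_[ℓ] (∀ i, Fin (n i) → ℚ_[ℓ]))}

/-- if `𝔤` normalizes the Lie algebra of the Tate tensors, its elements are sums of operators which
kill the Tate tensors and of central elements -/
theorem split_of_normal (hρ : ∀ i, Continuous fun g => LinearMap.toMatrix' (ρ i g))
    (h𝔤 : IsMotivic ρ 𝔤) (hss : FiniteIndexSemisimple (sumRep ρ)) (hE : EndoT (sumRep ρ) 𝔤)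
    (hN : Normal (sumRep ρ) 𝔤) {X : End ℚ_[ℓ] (∀ i, Fin (n i) → ℚ_[ℓ])} (hX : X ∈ 𝔤) :
    ∃ l, (∀ (m : ℕ) (φ : Tensor ℚ_[ℓ] (∀ i, Fin (n i) → ℚ_[ℓ]) m),
      TateTensor (sumRep ρ) φ → KillsTensor l φ) ∧ X - l ∈ 𝔤 ∧ ∀ Y ∈ 𝔤, (X - l) * Y = Y * (X - l) := by
  obtain ⟨L, hLG, hnd, hLie, hAd, hL, hfin⟩ := exists_L ρ h𝔤 hss
  have hN' : ∀ X ∈ 𝔤, ∀ Y ∈ L, X * Y - Y * X ∈ L := fun X hX Y hY =>
    (hL _).2 (hN X hX Y ((hL Y).1 hY))
  obtain ⟨l, hl, hz⟩ := exists_split hnd hLie (hN' X hX)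
  obtain ⟨Δ, hΔ, hc⟩ := hfin hρ
  exact ⟨l, (hL l).1 hl, 𝔤.sub_mem hX (hLG hl), fun Y hY =>
    (hE (X - l) ⟨Δ, hΔ, fun γ hγ => (hc γ hγ _ fun Y hY => (hz Y hY).symm).symm⟩ Y hY).symm⟩

theorem tate_of_normal (hρ : ∀ i, Continuous fun g => LinearMap.toMatrix' (ρ i g))
    (h𝔤 : IsMotivic ρ 𝔤) (hss : FiniteIndexSemisimple (sumRep ρ)) (hE : EndoT (sumRep ρ) 𝔤)
    (hC : CentreT (sumRep ρ) 𝔤 ∨ AbelianT (sumRep ρ) 𝔤) (hN : Normal (sumRep ρ) 𝔤)
    (m : ℕ) (φ : Tensor ℚ_[ℓ] (∀ i, Fin (n i) → ℚ_[ℓ]) m) :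
    TateTensor (sumRep ρ) φ ↔ ∀ X ∈ 𝔤, KillsTensor X φ := by
  refine ⟨fun hφ X hX => ?_, fun hφ => h𝔤.tate m φ hφ⟩
  obtain ⟨L, hLG, hnd, hLie, hAd, hL, hfin⟩ := exists_L ρ h𝔤 hss
  rcases hC with hC | hC
  · obtain ⟨l, hl, h1, h2⟩ := split_of_normal ρ hρ h𝔤 hss hE hN hX
    have h3 : X ∈ L := by
      have := L.add_mem ((hL (X - l)).2 (hC _ h1 h2)) ((hL l).2 hl)
      rwa [sub_add_cancel] at this
    exact (hL X).1 h3 m φ hφ
  · refine hC m φ hφ (fun X hX Y hY => ?_) X hX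
    obtain ⟨l, hl, h1, h2⟩ := split_of_normal ρ hρ h𝔤 hss hE hN hX
    have h3 : X * Y - Y * X = -(Y * l - l * Y) := by
      have h4 : X * Y - Y * X = ((X - l) * Y - Y * (X - l)) - (Y * l - l * Y) := by
        rw [sub_mul, mul_sub]
        abel
      rw [h4, h2 Y hY, sub_self, zero_sub]
    rw [h3]
    exact (hL _).1 (L.neg_mem ((hL _).2 (hN Y hY l hl))) m φ hφ

theorem normal_of_quartic (h𝔤 : IsMotivic ρ 𝔤) (hss : FiniteIndexSemisimple (sumRep ρ))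
    (hQ : Quartic (sumRep ρ) 𝔤) : Normal (sumRep ρ) 𝔤 := by
  intro X hX Y hY
  obtain ⟨L, hLG, hnd, hLie, hAd, hL, -⟩ := exists_L ρ h𝔤 hss
  refine (hL _).1 ?_
  have hYL : Y ∈ L := (hL _).2 hY
  obtain ⟨p, hp, hp'⟩ := exists_proj hnd
  have hpL : ∀ Z ∈ L, p Z = Z := fun Z hZ =>
    proj_unique hnd (hp Z) hZ fun T hT => (hp' Z T hT).symm
  have h1 := hQ p ⟨⊤, inferInstance, fun γ _ Z => ?_⟩ X hX Y
  · rw [hpL Y hYL] at h1
    rw [← h1]
    exact hp _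
  · refine proj_unique hnd (hp _) (hAd γ _ (hp Z)) fun T hT => ?_
    rw [← hp' _ T hT]
    have h2 : sumRep ρ γ⁻¹ * T * sumRep ρ γ ∈ L := by
      have h3 := hAd γ⁻¹ T hT
      rwa [inv_inv] at h3
    have e1 : ∀ A : End ℚ_[ℓ] (∀ i, Fin (n i) → ℚ_[ℓ]),
        LinearMap.trace ℚ_[ℓ] _ (sumRep ρ γ * A * sumRep ρ γ⁻¹ * T) =
          LinearMap.trace ℚ_[ℓ] _ (A * (sumRep ρ γ⁻¹ * T * sumRep ρ γ)) := by
      intro A
      have e2 : sumRep ρ γ * A * sumRep ρ γ⁻¹ * T = sumRep ρ γ * (A * (sumRep ρ γ⁻¹ * T)) := by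
        noncomm_ring
      rw [e2, LinearMap.trace_mul_comm]
      congr 1
    rw [e1, e1, hp' Z _ h2]

theorem semisimple_of_lie (h𝔤 : IsMotivic ρ 𝔤) (hS : LieStable (sumRep ρ) 𝔤) :
    FiniteIndexSemisimple (sumRep ρ) := by
  intro Δ hΔ U hU
  have hGU : StableUnder 𝔤 U := hS.stable hΔ hU
  obtain ⟨U', hGU', hcompl⟩ := h𝔤.semisimple U hGU
  let P : End ℚ_[ℓ] (∀ i, Fin (n i) → ℚ_[ℓ]) :=
    U.subtype ∘ₗ Submodule.projectionOnto U U' hcompl
  have hP : ∀ x, P x ∈ U := fun x => (Submodule.projectionOnto U U' hcompl x).2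
  have hP' : ∀ u ∈ U, P u = u := by
    intro u hu
    change ((Submodule.projectionOnto U U' hcompl u : U) : ∀ i, Fin (n i) → ℚ_[ℓ]) = u
    rw [Submodule.projectionOnto_apply_left hcompl ⟨u, hu⟩]
  have hP0 : ∀ u ∈ U', P u = 0 := by
    intro u hu
    change ((Submodule.projectionOnto U U' hcompl u : U) : ∀ i, Fin (n i) → ℚ_[ℓ]) = 0
    rw [Submodule.projectionOnto_apply_right hcompl ⟨u, hu⟩]
    rfl
  have hPX : ∀ X ∈ 𝔤, ∀ x, P (X x) = X (P x) := by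
    intro X hX x
    have hx : x ∈ U ⊔ U' := by
      rw [hcompl.sup_eq_top]
      exact Submodule.mem_top
    obtain ⟨u, hu, u', hu', rfl⟩ := Submodule.mem_sup.1 hx
    rw [map_add, map_add, map_add, hP' u hu, hP0 u' hu', hP' _ (hGU X hX u hu),
      hP0 _ (hGU' X hX u' hu'), add_zero, add_zero]
  let ω : ((∀ i, Fin (n i) → ℚ_[ℓ]) × Dual ℚ_[ℓ] (∀ i, Fin (n i) → ℚ_[ℓ])) →ₗ[ℚ_[ℓ]]
      ((∀ i, Fin (n i) → ℚ_[ℓ]) × Dual ℚ_[ℓ] (∀ i, Fin (n i) → ℚ_[ℓ])) →ₗ[ℚ_[ℓ]] ℚ_[ℓ] :=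
    LinearMap.mk₂ ℚ_[ℓ] (fun a b => b.2 (P a.1))
      (fun a a' b => by rw [Prod.fst_add, map_add, map_add])
      (fun c a b => by rw [Prod.smul_fst, map_smul, map_smul])
      (fun a b b' => by rw [Prod.snd_add, LinearMap.add_apply])
      (fun c a b => by rw [Prod.smul_snd, LinearMap.smul_apply])
  let φ : Tensor ℚ_[ℓ] (∀ i, Fin (n i) → ℚ_[ℓ]) 2 := Pool.Agent.H204R3.SP.bil2 ω
  have hφ : ∀ v, φ v = (v 1).2 (P (v 0).1) := fun v => rfl
  obtain ⟨Δ', hΔ', hfix⟩ := h𝔤.tate 2 φ (by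
    intro X hX v
    rw [Fin.sum_univ_two, hφ, hφ, Function.update_self, Function.update_self,
      Function.update_of_ne Fin.zero_ne_one.symm, Function.update_of_ne Fin.zero_ne_one]
    change (v 1).2 (P (X (v 0).1)) + -((v 1).2 (X (P (v 0).1))) = 0
    rw [hPX X hX]
    ring)
  have hc : ∀ s ∈ Δ', P * sumRep ρ s = sumRep ρ s * P := by
    intro s hs
    refine LinearMap.ext fun x => ?_
    have h1 : sumRep ρ s⁻¹ (P (sumRep ρ s x)) = P x := by
      rw [← sub_eq_zero, ← Module.forall_dual_apply_eq_zero_iff ℚ_[ℓ]]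
      intro ξ
      have h2 := hfix s hs ![(x, 0), (0, ξ)]
      rw [hφ, hφ] at h2
      change ξ (sumRep ρ s⁻¹ (P (sumRep ρ s x))) = ξ (P x) at h2
      rw [map_sub, h2, sub_self]
    rw [Module.End.mul_apply, Module.End.mul_apply, ← h1]
    rw [← Module.End.mul_apply (sumRep ρ s), ← map_mul, mul_inv_cancel, map_one]
    rfl
  exact Y41.RM.exists_compl_of_commute (sumRep ρ) Δ Δ' hΔ' U hU P hP hP' hc

theorem normal_of_lie (h𝔤 : IsMotivic ρ 𝔤) (hS : LieStable (sumRep ρ) 𝔤) :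
    Normal (sumRep ρ) 𝔤 := by
  intro X hX Y hY
  obtain ⟨L, hLG, hnd, hLie, hAd, hL, -⟩ := exists_L ρ h𝔤 (semisimple_of_lie ρ h𝔤 hS)
  exact (hL _).1 (hS L hLie ⟨⊤, inferInstance, fun γ _ => hAd γ⟩ X hX Y ((hL _).2 hY))

end main

section conv

variable {k V : Type} [Field k] [CharZero k] [AddCommGroup V] [Module k V]
  [FiniteDimensional k V] {Γ : Type} [Group Γ] {ρ : Representation k Γ V}
  {𝔤 : Submodule k (End k V)}

theorem abelian_of_tate
    (h : ∀ (m : ℕ) (φ : Tensor k V m), TateTensor ρ φ → ∀ X ∈ 𝔤, KillsTensor X φ) :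
    AbelianT ρ 𝔤 := fun m φ hφ _ => h m φ hφ

/-- The space `End V` is semisimple for all subgroups of finite index (which act by conjugation). -/
def AdSemisimple (ρ : Representation k Γ V) : Prop := ∀ Δ : Subgroup Γ, Δ.FiniteIndex →
  ∀ U : Submodule k (End k V), (∀ γ ∈ Δ, ∀ Y ∈ U, ρ γ * Y * ρ γ⁻¹ ∈ U) →
    ∃ U' : Submodule k (End k V), (∀ γ ∈ Δ, ∀ Y ∈ U', ρ γ * Y * ρ γ⁻¹ ∈ U') ∧ IsCompl U U'

theorem lieStable_of_quartic (hA : AdSemisimple ρ) (hQ : Quartic ρ 𝔤) : LieStable ρ 𝔤 := by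
  rintro U - ⟨Δ, hΔ, hU⟩ X hX Y hY
  obtain ⟨U', hU', hc⟩ := hA Δ hΔ U hU
  let p : End k (End k V) := U.subtype ∘ₗ Submodule.projectionOnto U U' hc
  have hp : ∀ x, p x ∈ U := fun x => (Submodule.projectionOnto U U' hc x).2
  have hp1 : ∀ u ∈ U, p u = u := by
    intro u hu
    change ((Submodule.projectionOnto U U' hc u : U) : End k V) = u
    rw [Submodule.projectionOnto_apply_left hc ⟨u, hu⟩]
  have hp0 : ∀ u ∈ U', p u = 0 := by
    intro u hu
    change ((Submodule.projectionOnto U U' hc u : U) : End k V) = 0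
    rw [Submodule.projectionOnto_apply_right hc ⟨u, hu⟩]
    rfl
  have h1 := hQ p ⟨Δ, hΔ, fun γ hγ Z => by
    have hz : Z ∈ U ⊔ U' := by
      rw [hc.sup_eq_top]
      exact Submodule.mem_top
    obtain ⟨u, hu, u', hu', rfl⟩ := Submodule.mem_sup.1 hz
    rw [mul_add, add_mul, map_add, map_add, hp1 u hu, hp0 u' hu', hp1 _ (hU γ hγ u hu),
      hp0 _ (hU' γ hγ u' hu'), add_zero, add_zero]⟩ X hX Y
  rw [hp1 Y hY] at h1
  rw [← h1]
  exact hp _

end conv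

end

end Pool.Agent.V5helper84.QT
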