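import Pool.Agent.V5helper84.QT.Form

/-!
# Two Lie algebras with the same invariants of type (2, 2)
-/

set_option autoImplicit false
set_option linter.unusedSectionVars false

namespace Pool.Agent.V5helper84.QT

open Module Pool.Agent.Y114.RM Pool.Agent.Y114.TF Pool.Agent.H204R3.GP Pool.Agent.R913.Adj
  Pool.Agent

noncomputable section

section form

variable {k : Type} [Field k] [CharZero k] {V : Type} [AddCommGroup V] [Module k V]
  [FiniteDimensional k V] {Γ : Type} [Group Γ] {ρ : Representation k Γ V}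
  {ω : V →ₗ[k] V →ₗ[k] k}

theorem inj_of (hω : ∀ u, (∀ v, ω u v = 0) → u = 0) {x y : V} (h : ∀ d, ω x d = ω y d) :
    x = y := by
  rw [← sub_eq_zero]
  exact hω _ fun v => by rw [map_sub, LinearMap.sub_apply, h, sub_self]

/-- a linear identity on `End V` can be checked on operators of rank one -/
theorem ext_rk (hω : ∀ u, (∀ v, ω u v = 0) → u = 0) {p q : End k V →ₗ[k] End k V}
    (h : ∀ a b, p (rk a (ω b)) = q (rk a (ω b))) : p = q := by
  refine LinearMap.ext fun Y => ?_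
  let b := Module.finBasis k V
  have h8 : Y = ∑ i, rk (Y (b i)) (b.coord i) := by
    refine LinearMap.ext fun v => ?_
    rw [LinearMap.sum_apply]
    conv_lhs => rw [← b.sum_repr v, map_sum]
    refine Finset.sum_congr rfl fun i _ => ?_
    rw [map_smul, rk_apply, Basis.coord_apply]
  rw [h8, map_sum, map_sum]
  refine Finset.sum_congr rfl fun i _ => ?_
  obtain ⟨c, hc⟩ := exists_vec hω (b.coord i)
  rw [← hc]
  exact h _ _

theorem fo_fixed_iff (hω : ∀ u, (∀ v, ω u v = 0) → u = 0)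
    (hinv : ∀ s u v, ω (ρ s u) (ρ s v) = ω u v) (p : End k (End k V)) (s : Γ) :
    (∀ v, fo ω p (fun l => ρ s (v l)) = fo ω p v) ↔
      ∀ Y, p (ρ s * Y * ρ s⁻¹) = ρ s * p Y * ρ s⁻¹ := by
  have e1 : ∀ a b, rk (ρ s a) (ω (ρ s b)) = ρ s * rk a (ω b) * ρ s⁻¹ := by
    intro a b
    refine LinearMap.ext fun y => ?_
    rw [rk_apply, Module.End.mul_apply, Module.End.mul_apply, rk_apply, map_smul]
    congr 1
    have h2 := hinv s b (ρ s⁻¹ y)
    rwa [← Module.End.mul_apply (ρ s) (ρ s⁻¹) y, rmi, Module.End.one_apply] at h2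
  constructor
  · intro h
    let q1 : End k V →ₗ[k] End k V :=
      p ∘ₗ LinearMap.mulRight k (ρ s⁻¹) ∘ₗ LinearMap.mulLeft k (ρ s)
    let q2 : End k V →ₗ[k] End k V :=
      (LinearMap.mulRight k (ρ s⁻¹) ∘ₗ LinearMap.mulLeft k (ρ s)) ∘ₗ p
    have h3 : q1 = q2 := ext_rk hω fun a b => by
      change p (ρ s * rk a (ω b) * ρ s⁻¹) = ρ s * p (rk a (ω b)) * ρ s⁻¹
      refine LinearMap.ext fun w => inj_of hω fun d => ?_
      have h4 := h ![a, b, ρ s⁻¹ w, ρ s⁻¹ d]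
      rw [fo_apply, fo_apply] at h4
      simp only [Matrix.cons_val_zero, Matrix.cons_val_one, Matrix.cons_val] at h4
      rw [e1, ← Module.End.mul_apply (ρ s) (ρ s⁻¹) w, ← Module.End.mul_apply (ρ s) (ρ s⁻¹) d, rmi,
        Module.End.one_apply, Module.End.one_apply] at h4
      rw [h4, ← hinv s, ← Module.End.mul_apply (ρ s) (ρ s⁻¹) d, rmi, Module.End.one_apply]
      rfl
    intro Y
    exact LinearMap.congr_fun h3 Y
  · intro h v
    rw [fo_apply, fo_apply, e1, h, Module.End.mul_apply, Module.End.mul_apply,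
      ← Module.End.mul_apply (ρ s⁻¹) (ρ s), rim, Module.End.one_apply, hinv]

theorem fo_killed_iff (hω : ∀ u, (∀ v, ω u v = 0) → u = 0) {X : End k V}
    (hX : ∀ u v, ω (X u) v + ω u (X v) = 0) (p : End k (End k V)) :
    (∀ v, ∑ l, fo ω p (Function.update v l (X (v l))) = 0) ↔
      ∀ Y, p (X * Y - Y * X) = X * p Y - p Y * X := by
  have h5 : ∀ x b, rk x (ω (X b)) = -(rk x (ω b) * X) := by
    intro x b
    refine LinearMap.ext fun y => ?_
    rw [rk_apply, LinearMap.neg_apply, Module.End.mul_apply, rk_apply, ← neg_smul]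
    congr 1
    exact eq_neg_of_add_eq_zero_left (hX b y)
  have h6 : ∀ x b, rk (X x) (ω b) = X * rk x (ω b) := by
    intro x b
    refine LinearMap.ext fun y => ?_
    rw [rk_apply, Module.End.mul_apply, rk_apply, map_smul]
  have key : ∀ a b w d, ω ((p (X * rk a (ω b) - rk a (ω b) * X) -
      (X * p (rk a (ω b)) - p (rk a (ω b)) * X)) w) d =
      ∑ l, fo ω p (Function.update ![a, b, w, d] l (X ((![a, b, w, d] : Fin 4 → V) l))) := by
    intro a b w d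
    rw [sum_update (fun v => fo ω p v)]
    simp only [fo_apply, Matrix.cons_val_zero, Matrix.cons_val_one, Matrix.cons_val]
    rw [h5, h6, map_neg, map_sub]
    have h7 := hX (p (rk a (ω b)) w) d
    simp only [LinearMap.sub_apply, LinearMap.neg_apply, map_sub, map_neg, Module.End.mul_apply]
    linear_combination -h7
  constructor
  · intro h
    let q1 : End k V →ₗ[k] End k V :=
      p ∘ₗ (LinearMap.mulLeft k X - LinearMap.mulRight k X)
    let q2 : End k V →ₗ[k] End k V :=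
      (LinearMap.mulLeft k X - LinearMap.mulRight k X) ∘ₗ p
    have h3 : q1 = q2 := ext_rk hω fun a b => by
      change p (X * rk a (ω b) - rk a (ω b) * X) = X * p (rk a (ω b)) - p (rk a (ω b)) * X
      rw [← sub_eq_zero]
      refine LinearMap.ext fun w => ?_
      rw [LinearMap.zero_apply]
      refine hω _ fun d => ?_
      rw [key, h]
    intro Y
    exact LinearMap.congr_fun h3 Y
  · intro h v
    have h1 := key (v 0) (v 1) (v 2) (v 3)
    have hv : ![v 0, v 1, v 2, v 3] = v := by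
      funext i
      fin_cases i <;> rfl
    rw [hv] at h1
    rw [← h1, h, sub_self, LinearMap.zero_apply, map_zero, LinearMap.zero_apply]

end form

section main

variable {ι : Type} [Fintype ι] [DecidableEq ι] {n : ι → ℕ} {ℓ : ℕ} [hℓ : Fact ℓ.Prime]
  {Γ : Type} [Group Γ] [TopologicalSpace Γ] [IsTopologicalGroup Γ] [CompactSpace Γ]
  (ρ : ∀ i, Representation ℚ_[ℓ] Γ (Fin (n i) → ℚ_[ℓ]))
  {𝔪 : Submodule ℚ_[ℓ] (End ℚ_[ℓ] (∀ i, Fin (n i) → ℚ_[ℓ]))}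

/-- The endomorphism `p` of `End V` commutes with the conjugations by the elements of a subgroup of
finite index. -/
def TateP {k V Γ : Type} [Field k] [AddCommGroup V] [Module k V] [Group Γ]
    (ρ : Representation k Γ V) (p : End k (End k V)) : Prop :=
  ∃ Δ : Subgroup Γ, Δ.FiniteIndex ∧ ∀ γ ∈ Δ, ∀ Y, p (ρ γ * Y * ρ γ⁻¹) = ρ γ * p Y * ρ γ⁻¹

/-- The endomorphism `p` of `End V` commutes with the brackets with the elements of `𝔪`. -/
def HodgeP {k V : Type} [Field k] [AddCommGroup V] [Module k V]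
    (𝔪 : Submodule k (End k V)) (p : End k (End k V)) : Prop :=
  ∀ X ∈ 𝔪, ∀ Y, p (X * Y - Y * X) = X * p Y - p Y * X

/-- The orthogonal projection to a Lie algebra with nondegenerate trace form commutes with its
adjoint action. -/
theorem hodgeP_proj {k V : Type} [Field k] [CharZero k] [AddCommGroup V] [Module k V]
    [FiniteDimensional k V] {M : Submodule k (End k V)} (hnd : NonDeg M) (hLie : IsLie M)
    {p : End k (End k V)} (hp : ∀ X, p X ∈ M)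
    (hp' : ∀ X, ∀ Y ∈ M, LinearMap.trace k V (X * Y) = LinearMap.trace k V (p X * Y)) :
    HodgeP M p := by
  intro X hX Y
  refine proj_unique hnd (hp _) (hLie X hX _ (hp Y)) fun Z hZ => ?_
  rw [← hp' _ Z hZ]
  have e : ∀ A : End k V, LinearMap.trace k V ((X * A - A * X) * Z) =
      LinearMap.trace k V (A * (Z * X - X * Z)) := by
    intro A
    have e1 : (X * A - A * X) * Z = X * (A * Z) - A * (X * Z) := by noncomm_ring
    have e2 : A * (Z * X - X * Z) = (A * Z) * X - A * (X * Z) := by noncomm_ring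
    rw [e1, e2, map_sub, map_sub, LinearMap.trace_mul_comm k X]
  rw [e, e, hp' Y _ (hLie Z hZ X hX)]

theorem mulLeft_tate {k V Γ : Type} [Field k] [AddCommGroup V] [Module k V] [Group Γ]
    {ρ : Representation k Γ V} {P : End k V} :
    TateP ρ (LinearMap.mulLeft k P) ↔
      ∃ Δ : Subgroup Γ, Δ.FiniteIndex ∧ ∀ γ ∈ Δ, P * ρ γ = ρ γ * P := by
  constructor
  · rintro ⟨Δ, hΔ, h⟩
    refine ⟨Δ, hΔ, fun γ hγ => ?_⟩
    have h1 := h γ hγ 1
    rw [LinearMap.mulLeft_apply, LinearMap.mulLeft_apply, mul_one, mul_one] at h1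
    have h2 := congrArg (fun T => T * ρ γ) h1
    simp only [mul_assoc] at h2
    rw [rim] at h2
    simpa only [mul_one] using h2
  · rintro ⟨Δ, hΔ, hP⟩
    refine ⟨Δ, hΔ, fun γ hγ Y => ?_⟩
    rw [LinearMap.mulLeft_apply, LinearMap.mulLeft_apply, ← mul_assoc, ← mul_assoc, hP γ hγ]
    noncomm_ring

theorem mulLeft_hodge {k V : Type} [Field k] [AddCommGroup V] [Module k V]
    {𝔪 : Submodule k (End k V)} {P : End k V} :
    HodgeP 𝔪 (LinearMap.mulLeft k P) ↔ ∀ X ∈ 𝔪, X * P = P * X := by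
  constructor
  · intro h X hX
    have h1 := h X hX 1
    rw [LinearMap.mulLeft_apply, LinearMap.mulLeft_apply, mul_one, mul_one, one_mul, sub_self,
      mul_zero] at h1
    exact sub_eq_zero.1 h1.symm
  · intro h X hX Y
    rw [LinearMap.mulLeft_apply, LinearMap.mulLeft_apply, mul_sub, ← mul_assoc, ← mul_assoc,
      ← mul_assoc, h X hX]

/-- the Lie algebra of the Tate tensors -/
theorem exists_L' (hss : FiniteIndexSemisimple (sumRep ρ)) :
    ∃ L : Submodule ℚ_[ℓ] (End ℚ_[ℓ] (∀ i, Fin (n i) → ℚ_[ℓ])), NonDeg L ∧ IsLie L ∧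
      (∀ γ, ∀ X ∈ L, sumRep ρ γ * X * sumRep ρ γ⁻¹ ∈ L) ∧
      (∀ X, X ∈ L ↔ ∀ (m : ℕ) (φ : Tensor ℚ_[ℓ] (∀ i, Fin (n i) → ℚ_[ℓ]) m),
        TateTensor (sumRep ρ) φ → KillsTensor X φ) ∧
      ((∀ i, Continuous fun g => LinearMap.toMatrix' (ρ i g)) →
        ∃ Δ : Subgroup Γ, Δ.FiniteIndex ∧ ∀ γ ∈ Δ, ∀ Y, (∀ X ∈ L, X * Y = Y * X) →
          sumRep ρ γ * Y = Y * sumRep ρ γ) := by
  obtain ⟨L, hL, hLie, hAd, -⟩ := Y41.RM.lieL' ℚ_[ℓ] (∀ i, Fin (n i) → ℚ_[ℓ]) Γ (sumRep ρ)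
  have hnd : NonDeg L := nonDeg_of_semisimple hss hL hLie hAd
  refine ⟨L, hnd, hLie, fun γ X hX => ?_, fun X => ⟨fun hX => ((hL X).1 hX).2, fun hX =>
      (hL X).2 (mem_LT_of_semisimple (sumRep ρ) hss hX)⟩, fun hρ => ?_⟩
  · have h1 := hAd γ X hX
    rwa [AdE_apply, ← mul_assoc] at h1
  · exact Y220.RM.tfr ℓ ι n Γ ρ hρ (R913.Adj.comm L) (comm_conj hAd) (comm_order hL)

/-- The Lie algebra `L` of the Tate tensors and a Lie algebra `𝔪` which normalize each other and have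
the same commutant; the orthogonal projections. -/
theorem mutualL (hρ : ∀ i, Continuous fun g => LinearMap.toMatrix' (ρ i g))
    (hss : FiniteIndexSemisimple (sumRep ρ)) (hnd : NonDeg 𝔪) (hLie : IsLie 𝔪)
    (hHT : ∀ p, HodgeP 𝔪 p → TateP (sumRep ρ) p) (hE : EndoT (sumRep ρ) 𝔪)
    (hN : Normal (sumRep ρ) 𝔪) :
    ∃ L : Submodule ℚ_[ℓ] (End ℚ_[ℓ] (∀ i, Fin (n i) → ℚ_[ℓ])),
      (∀ X, X ∈ L ↔ ∀ (m : ℕ) (φ : Tensor ℚ_[ℓ] (∀ i, Fin (n i) → ℚ_[ℓ]) m),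
        TateTensor (sumRep ρ) φ → KillsTensor X φ) ∧ IsLie L ∧
      (∀ P, (∀ X ∈ L, X * P = P * X) ↔ ∀ X ∈ 𝔪, X * P = P * X) ∧
      (∀ X ∈ 𝔪, ∃ l ∈ L, ∀ Y, (Y ∈ L ∨ Y ∈ 𝔪) → (X - l) * Y = Y * (X - l)) ∧
      (∀ X ∈ L, ∃ m ∈ 𝔪, ∀ Y, (Y ∈ L ∨ Y ∈ 𝔪) → (X - m) * Y = Y * (X - m)) := by
  obtain ⟨L, hLnd, hLLie, hAd, hL, hfin⟩ := exists_L' ρ hss
  obtain ⟨Δ, hΔ, hc⟩ := hfin hρ
  have hTL : ∀ p, TateP (sumRep ρ) p → HodgeP L p := by
    rintro p ⟨Δ', hΔ', hp⟩ X hX Y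
    exact kills_ten ((hL X).1 hX 4 _ (tate_ten hΔ' hp)) Y
  -- the commutants
  have hcom : ∀ P, (∀ X ∈ L, X * P = P * X) ↔ ∀ X ∈ 𝔪, X * P = P * X := by
    intro P
    constructor
    · intro h
      exact hE P ⟨Δ, hΔ, fun γ hγ => (hc γ hγ P h).symm⟩
    · intro h
      exact mulLeft_hodge.1 (hTL _ (hHT _ (mulLeft_hodge.2 h)))
  -- the normalizers
  have h1 : ∀ X ∈ 𝔪, ∀ Y ∈ L, X * Y - Y * X ∈ L := fun X hX Y hY =>
    (hL _).2 (hN X hX Y ((hL Y).1 hY))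
  have h2 : ∀ X ∈ L, ∀ Y ∈ 𝔪, X * Y - Y * X ∈ 𝔪 := by
    intro X hX Y hY
    obtain ⟨p, hp, hp'⟩ := exists_proj hnd
    have h3 := hTL p (hHT p (hodgeP_proj hnd hLie hp hp')) X hX Y
    have h4 : p Y = Y := proj_unique hnd (hp Y) hY fun T hT => (hp' Y T hT).symm
    rw [h4] at h3
    rw [← h3]
    exact hp _
  refine ⟨L, hL, hLLie, hcom, fun X hX => ?_, fun X hX => ?_⟩
  · obtain ⟨l, hl, h3⟩ := exists_split hLnd hLLie (h1 X hX)
    refine ⟨l, hl, fun Y hY => ?_⟩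
    have h4 : ∀ Z ∈ L, Z * (X - l) = (X - l) * Z := fun Z hZ => (h3 Z hZ).symm
    rcases hY with hY | hY
    · exact h3 Y hY
    · exact ((hcom _).1 h4 Y hY).symm
  · obtain ⟨l, hl, h3⟩ := exists_split hnd hLie (h2 X hX)
    refine ⟨l, hl, fun Y hY => ?_⟩
    have h4 : ∀ Z ∈ 𝔪, Z * (X - l) = (X - l) * Z := fun Z hZ => (h3 Z hZ).symm
    rcases hY with hY | hY
    · exact ((hcom _).2 h4 Y hY).symm
    · exact h3 Y hY

/-- the brackets -/
theorem brackets_eq {k V : Type} [Field k] [AddCommGroup V] [Module k V]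
    {X Y l m : End k V} (h1 : (X - l) * Y = Y * (X - l)) (h2 : (Y - m) * l = l * (Y - m)) :
    X * Y - Y * X = l * m - m * l := by
  have h3 : X * Y - Y * X = ((X - l) * Y - Y * (X - l)) - ((Y - m) * l - l * (Y - m)) +
      (l * m - m * l) := by
    simp only [sub_mul, mul_sub]
    abel
  rw [h3, h1, h2, sub_self, sub_self, sub_self, zero_add]

/-- Elements which are skew for a form and central. -/
def NoSkewCentre {k V : Type} [Field k] [AddCommGroup V] [Module k V]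
    (𝔪 : Submodule k (End k V)) (ω : V →ₗ[k] V →ₗ[k] k) : Prop :=
  ∀ z : End k V, (∀ X ∈ 𝔪, X * z = z * X) →
    (∀ P : End k V, (∀ X ∈ 𝔪, X * P = P * X) → z * P = P * z) →
    (∀ u v, ω (z u) v + ω u (z v) = 0) → z = 0

/-- an invariant form is a Tate tensor -/
theorem skew_of_kills {k V Γ : Type} [Field k] [CharZero k] [AddCommGroup V] [Module k V]
    [FiniteDimensional k V] [Group Γ] {ρ : Representation k Γ V} {ω : V →ₗ[k] V →ₗ[k] k}
    (hinv : ∀ s u v, ω (ρ s u) (ρ s v) = ω u v) {X : End k V}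
    (hX : ∀ (m : ℕ) (φ : Tensor k V m), TateTensor ρ φ → KillsTensor X φ) (u v : V) :
    ω (X u) v + ω u (X v) = 0 := by
  let b : (V × Dual k V) →ₗ[k] (V × Dual k V) →ₗ[k] k :=
    LinearMap.mk₂ k (fun x y => ω x.1 y.1)
      (fun x x' y => by rw [Prod.fst_add, map_add, LinearMap.add_apply])
      (fun c x y => by rw [Prod.smul_fst, map_smul, LinearMap.smul_apply])
      (fun x y y' => by rw [Prod.fst_add, map_add])
      (fun c x y => by rw [Prod.smul_fst, map_smul])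
  let φ : Tensor k V 2 := Pool.Agent.H204R3.SP.bil2 b
  have hφ : ∀ w, φ w = ω (w 0).1 (w 1).1 := fun w => rfl
  have h1 : TateTensor ρ φ := ⟨⊤, inferInstance, fun s _ w => by
    rw [hφ, hφ]
    exact hinv s _ _⟩
  have h2 := hX 2 φ h1 ![(u, 0), (v, 0)]
  rw [Fin.sum_univ_two, hφ, hφ, Function.update_self, Function.update_self,
    Function.update_of_ne Fin.zero_ne_one.symm, Function.update_of_ne Fin.zero_ne_one] at h2
  exact h2

/-- The two Lie algebras are equal if there are no skew central elements. -/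
theorem eq_of_mutual (hρ : ∀ i, Continuous fun g => LinearMap.toMatrix' (ρ i g))
    (hss : FiniteIndexSemisimple (sumRep ρ)) (hnd : NonDeg 𝔪) (hLie : IsLie 𝔪)
    (hHT : ∀ p, HodgeP 𝔪 p → TateP (sumRep ρ) p) (hE : EndoT (sumRep ρ) 𝔪)
    (hN : Normal (sumRep ρ) 𝔪)
    {ω : (∀ i, Fin (n i) → ℚ_[ℓ]) →ₗ[ℚ_[ℓ]] (∀ i, Fin (n i) → ℚ_[ℓ]) →ₗ[ℚ_[ℓ]] ℚ_[ℓ]}
    (hinv : ∀ s u v, ω (sumRep ρ s u) (sumRep ρ s v) = ω u v)
    (hsk : ∀ X ∈ 𝔪, ∀ u v, ω (X u) v + ω u (X v) = 0) (hcm : NoSkewCentre 𝔪 ω)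
    (X : End ℚ_[ℓ] (∀ i, Fin (n i) → ℚ_[ℓ])) :
    X ∈ 𝔪 ↔ ∀ (m : ℕ) (φ : Tensor ℚ_[ℓ] (∀ i, Fin (n i) → ℚ_[ℓ]) m),
      TateTensor (sumRep ρ) φ → KillsTensor X φ := by
  obtain ⟨L, hL, hLLie, hcom, h1, h2⟩ := mutualL ρ hρ hss hnd hLie hHT hE hN
  have hskL : ∀ X ∈ L, ∀ u v, ω (X u) v + ω u (X v) = 0 := fun X hX =>
    skew_of_kills hinv ((hL X).1 hX)
  have hsub : ∀ X l : End ℚ_[ℓ] (∀ i, Fin (n i) → ℚ_[ℓ]),
      (∀ u v, ω (X u) v + ω u (X v) = 0) → (∀ u v, ω (l u) v + ω u (l v) = 0) →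
      ∀ u v, ω ((X - l) u) v + ω u ((X - l) v) = 0 := by
    intro X l hX hl u v
    rw [LinearMap.sub_apply, LinearMap.sub_apply, map_sub, map_sub, LinearMap.sub_apply]
    linear_combination hX u v - hl u v
  rw [← hL]
  constructor
  · intro hX
    obtain ⟨l, hl, h3⟩ := h1 X hX
    have h4 : X - l = 0 := hcm _ (fun Y hY => (h3 Y (Or.inr hY)).symm) (fun P hP => by
      rw [sub_mul, mul_sub, hP X hX, (hcom P).2 hP l hl]) (hsub X l (hsk X hX) (hskL l hl))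
    rw [sub_eq_zero.1 h4]
    exact hl
  · intro hX
    obtain ⟨m, hm, h3⟩ := h2 X hX
    have h4 : X - m = 0 := hcm _ (fun Y hY => (h3 Y (Or.inr hY)).symm) (fun P hP => by
      rw [sub_mul, mul_sub, (hcom P).2 hP X hX, hP m hm]) (hsub X m (hskL X hX) (hsk m hm))
    rw [sub_eq_zero.1 h4]
    exact hm

/-- The brackets of the two Lie algebras. -/
theorem brackets_of_mutual (hρ : ∀ i, Continuous fun g => LinearMap.toMatrix' (ρ i g))
    (hss : FiniteIndexSemisimple (sumRep ρ)) (hnd : NonDeg 𝔪) (hLie : IsLie 𝔪)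
    (hHT : ∀ p, HodgeP 𝔪 p → TateP (sumRep ρ) p) (hE : EndoT (sumRep ρ) 𝔪)
    (hN : Normal (sumRep ρ) 𝔪) (Z : End ℚ_[ℓ] (∀ i, Fin (n i) → ℚ_[ℓ])) :
    (∃ X ∈ 𝔪, ∃ Y ∈ 𝔪, Z = X * Y - Y * X) ↔
      ∃ X Y : End ℚ_[ℓ] (∀ i, Fin (n i) → ℚ_[ℓ]),
        (∀ (m : ℕ) (φ : Tensor ℚ_[ℓ] (∀ i, Fin (n i) → ℚ_[ℓ]) m),
          TateTensor (sumRep ρ) φ → KillsTensor X φ) ∧
        (∀ (m : ℕ) (φ : Tensor ℚ_[ℓ] (∀ i, Fin (n i) → ℚ_[ℓ]) m),
          TateTensor (sumRep ρ) φ → KillsTensor Y φ) ∧ Z = X * Y - Y * X := by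
  obtain ⟨L, hL, hLLie, hcom, h1, h2⟩ := mutualL ρ hρ hss hnd hLie hHT hE hN
  constructor
  · rintro ⟨X, hX, Y, hY, rfl⟩
    obtain ⟨l, hl, h3⟩ := h1 X hX
    obtain ⟨m, hm, h4⟩ := h1 Y hY
    exact ⟨l, m, (hL l).1 hl, (hL m).1 hm, brackets_eq (h3 Y (Or.inr hY)) (h4 l (Or.inl hl))⟩
  · rintro ⟨X, Y, hX, hY, rfl⟩
    obtain ⟨l, hl, h3⟩ := h2 X ((hL X).2 hX)
    obtain ⟨m, hm, h4⟩ := h2 Y ((hL Y).2 hY)
    exact ⟨l, hl, m, hm, brackets_eq (h3 Y (Or.inl ((hL Y).2 hY))) (h4 l (Or.inr hl))⟩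

/-- If the Tate classes of type (2, 2) are Hodge classes. -/
theorem normal_of_tateHodge (hss : FiniteIndexSemisimple (sumRep ρ))
    (hTH : ∀ p, TateP (sumRep ρ) p → HodgeP 𝔪 p) : Normal (sumRep ρ) 𝔪 := by
  intro X hX Y hY
  obtain ⟨L, hnd, hLie, hAd, hL, -⟩ := exists_L' ρ hss
  refine (hL _).1 ?_
  have hYL : Y ∈ L := (hL _).2 hY
  obtain ⟨p, hp, hp'⟩ := exists_proj hnd
  have hpL : ∀ Z ∈ L, p Z = Z := fun Z hZ =>
    proj_unique hnd (hp Z) hZ fun T hT => (hp' Z T hT).symm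
  have h1 := hTH p ⟨⊤, inferInstance, fun γ _ Z => ?_⟩ X hX Y
  · rw [hpL Y hYL] at h1
    rw [← h1]
    exact hp _
  · refine proj_unique hnd (hp _) (hAd γ _ (hp Z)) fun T hT => ?_
    rw [← hp' _ T hT]
    have h2 : sumRep ρ γ⁻¹ * T * sumRep ρ γ ∈ L := by
      have h3 := hAd γ⁻¹ T hT
      rwa [inv_inv] at h3
    have e1 : ∀ A : End ℚ_[ℓ] (∀ i, Fin (n i) → ℚ_[ℓ]),
        LinearMap.trace ℚ_[ℓ] _ (sumRep ρ γ * A * sumRep ρ γ⁻¹ * T) =
          LinearMap.trace ℚ_[ℓ] _ (A * (sumRep ρ γ⁻¹ * T * sumRep ρ γ)) := by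
      intro A
      have e2 : sumRep ρ γ * A * sumRep ρ γ⁻¹ * T = sumRep ρ γ * (A * (sumRep ρ γ⁻¹ * T)) := by
        noncomm_ring
      rw [e2, LinearMap.trace_mul_comm]
      congr 1
    rw [e1, e1, hp' Z _ h2]

theorem endo_of_tateHodge {k V Γ : Type} [Field k] [CharZero k] [AddCommGroup V] [Module k V]
    [FiniteDimensional k V] [Group Γ] {ρ : Representation k Γ V} {𝔪 : Submodule k (End k V)}
    (hTH : ∀ p, TateP ρ p → HodgeP 𝔪 p) : EndoT ρ 𝔪 := fun _ hP =>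
  mulLeft_hodge.1 (hTH _ (mulLeft_tate.2 hP))

theorem semisimple_of_lie' (hsm : ∀ U, StableUnder 𝔪 U → ∃ U', StableUnder 𝔪 U' ∧ IsCompl U U')
    (hHT : ∀ p, HodgeP 𝔪 p → TateP (sumRep ρ) p) (hS : LieStable (sumRep ρ) 𝔪) :
    FiniteIndexSemisimple (sumRep ρ) := by
  intro Δ hΔ U hU
  have hGU : StableUnder 𝔪 U := hS.stable hΔ hU
  obtain ⟨U', hGU', hcompl⟩ := hsm U hGU
  let P : End ℚ_[ℓ] (∀ i, Fin (n i) → ℚ_[ℓ]) :=
    U.subtype ∘ₗ Submodule.projectionOnto U U' hcompl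
  have hP : ∀ x, P x ∈ U := fun x => (Submodule.projectionOnto U U' hcompl x).2
  have hP' : ∀ u ∈ U, P u = u := by
    intro u hu
    change ((Submodule.projectionOnto U U' hcompl u : U) : ∀ i, Fin (n i) → ℚ_[ℓ]) = u
    rw [Submodule.projectionOnto_apply_left hcompl ⟨u, hu⟩]
  have hP0 : ∀ u ∈ U', P u = 0 := by
    intro u hu
    change ((Submodule.projectionOnto U U' hcompl u : U) : ∀ i, Fin (n i) → ℚ_[ℓ]) = 0
    rw [Submodule.projectionOnto_apply_right hcompl ⟨u, hu⟩]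
    rfl
  have hPX : ∀ X ∈ 𝔪, X * P = P * X := by
    intro X hX
    refine LinearMap.ext fun x => ?_
    have hx : x ∈ U ⊔ U' := by
      rw [hcompl.sup_eq_top]
      exact Submodule.mem_top
    obtain ⟨u, hu, u', hu', rfl⟩ := Submodule.mem_sup.1 hx
    rw [Module.End.mul_apply, Module.End.mul_apply, map_add, map_add, map_add, map_add, hP' u hu,
      hP0 u' hu', hP' _ (hGU X hX u hu), hP0 _ (hGU' X hX u' hu'), map_zero]
  obtain ⟨Δ', hΔ', hc⟩ := mulLeft_tate.1 (hHT _ (mulLeft_hodge.2 hPX))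
  exact Y41.RM.exists_compl_of_commute (sumRep ρ) Δ Δ' hΔ' U hU P hP hP' hc

theorem normal_of_lie' (hss : FiniteIndexSemisimple (sumRep ρ)) (hS : LieStable (sumRep ρ) 𝔪) :
    Normal (sumRep ρ) 𝔪 := by
  intro X hX Y hY
  obtain ⟨L, hnd, hLie, hAd, hL, -⟩ := exists_L' ρ hss
  exact (hL _).1 (hS L hLie ⟨⊤, inferInstance, fun γ _ => hAd γ⟩ X hX Y ((hL _).2 hY))

/-! ### Forms in four variables -/

section four

variable {k V Γ : Type} [Field k] [CharZero k] [AddCommGroup V] [Module k V]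
  [FiniteDimensional k V] [Group Γ] (ρ : Representation k Γ V) (𝔪 : Submodule k (End k V))

/-- The form is fixed by a subgroup of finite index. -/
def TateForm (φ : MultilinearMap k (fun _ : Fin 4 => V) k) : Prop :=
  ∃ Δ : Subgroup Γ, Δ.FiniteIndex ∧ ∀ s ∈ Δ, ∀ v, φ (fun l => ρ s (v l)) = φ v

/-- The form is killed by the elements of `𝔪`. -/
def HodgeForm (φ : MultilinearMap k (fun _ : Fin 4 => V) k) : Prop :=
  ∀ X ∈ 𝔪, ∀ v, ∑ l, φ (Function.update v l (X (v l))) = 0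

variable {ρ 𝔪} {ω : V →ₗ[k] V →ₗ[k] k}

theorem hodgeTate_of_forms (hω : ∀ u, (∀ v, ω u v = 0) → u = 0)
    (hinv : ∀ s u v, ω (ρ s u) (ρ s v) = ω u v)
    (hsk : ∀ X ∈ 𝔪, ∀ u v, ω (X u) v + ω u (X v) = 0)
    (h : ∀ φ, HodgeForm 𝔪 φ → TateForm ρ φ) (p : End k (End k V)) (hp : HodgeP 𝔪 p) :
    TateP ρ p := by
  obtain ⟨Δ, hΔ, h1⟩ := h (fo ω p) fun X hX => (fo_killed_iff hω (hsk X hX) p).2 (hp X hX)
  exact ⟨Δ, hΔ, fun γ hγ => (fo_fixed_iff hω hinv p γ).1 (h1 γ hγ)⟩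

theorem tateHodge_of_forms (hω : ∀ u, (∀ v, ω u v = 0) → u = 0)
    (hinv : ∀ s u v, ω (ρ s u) (ρ s v) = ω u v)
    (hsk : ∀ X ∈ 𝔪, ∀ u v, ω (X u) v + ω u (X v) = 0)
    (h : ∀ φ, TateForm ρ φ → HodgeForm 𝔪 φ) (p : End k (End k V)) (hp : TateP ρ p) :
    HodgeP 𝔪 p := by
  obtain ⟨Δ, hΔ, h1⟩ := hp
  exact fun X hX => (fo_killed_iff hω (hsk X hX) p).1 (h (fo ω p)
    ⟨Δ, hΔ, fun γ hγ => (fo_fixed_iff hω hinv p γ).2 (h1 γ hγ)⟩ X hX)

theorem forms_of_tate (hω : ∀ u, (∀ v, ω u v = 0) → u = 0)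
    (hinv : ∀ s u v, ω (ρ s u) (ρ s v) = ω u v)
    (hsk : ∀ X ∈ 𝔪, ∀ u v, ω (X u) v + ω u (X v) = 0)
    (h : ∀ (m : ℕ) (φ : Tensor k V m), TateTensor ρ φ → ∀ X ∈ 𝔪, KillsTensor X φ)
    (φ : MultilinearMap k (fun _ : Fin 4 => V) k) (hφ : TateForm ρ φ) : HodgeForm 𝔪 φ := by
  intro X hX v
  obtain ⟨Δ, hΔ, h1⟩ := hφ
  have h2 := four_of_tate (χ := fun _ => 1) hω (fun _ => one_ne_zero)
    (fun s u v => by rw [one_mul]; exact hinv s u v) h φ
    ⟨Δ, hΔ, fun s hs v => by rw [one_pow, one_mul]; exact h1 s hs v⟩ X hX 0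
    (fun u v => by rw [zero_mul]; exact hsk X hX u v) v
  rwa [mul_zero, zero_mul] at h2

end four

end main

end

end Pool.Agent.V5helper84.QT
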